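import Mathlib

/-!
# Simultaneous `𝔭`-orderings in Dedekind domains: the definitions used in the statements
-/

namespace Pool.Agent.Work.MP_b29d7f_nt.Ded

open Finset Polynomial

universe u

section defs

variable {R : Type*} [CommRing R]

/-- the exponent of the prime ideal `p` in the factorisation of the ideal `xR` (it is `⊤` for
`x = 0`) -/
noncomputable def val (p : Ideal R) (x : R) : ℕ∞ := emultiplicity p (Ideal.span {x})

/-- `a` is a `p`-ordering of `S`: all its terms lie in `S`, and for every `k` the term `a k`
minimises over `S` the `p`-adic valuation of `∏_{i<k} (s - a i)`. -/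
def IsPOrdering (S : Set R) (p : Ideal R) (a : ℕ → R) : Prop :=
  (∀ k, a k ∈ S) ∧ ∀ k, ∀ s ∈ S,
    val p (∏ i ∈ Finset.range k, (a k - a i)) ≤ val p (∏ i ∈ Finset.range k, (s - a i))

/-- `S` admits a simultaneous `𝔭`-ordering: one sequence is a `p`-ordering of `S` for every
nonzero prime ideal `p`. -/
def HasSimultaneousOrdering (S : Set R) : Prop :=
  ∃ a : ℕ → R, ∀ p : Ideal R, p.IsPrime → p ≠ ⊥ → IsPOrdering S p a

/-- the norm of an element `x`: the cardinality of `R / xR` (`0` if it is infinite) -/
noncomputable def nrm (x : R) : ℕ := Nat.card (R ⧸ Ideal.span {x})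

/-- the norm `x ↦ |R / xR|` satisfies the ultrametric inequality -/
def UltraNorm (R : Type*) [CommRing R] : Prop :=
  ∀ x y : R, nrm (x + y) ≤ max (nrm x) (nrm y)

end defs

/-- `R` is isomorphic to a polynomial ring `k[X]` over a finite field `k` -/
def IsPolyRing (R : Type u) [CommRing R] : Prop :=
  ∃ (k : Type u) (_ : Field k) (_ : Finite k), Nonempty (R ≃+* k[X])

/-- `S` is contained in the coset `b + I` and is `p`-adically dense in it for every nonzero prime
ideal `p` -/
def DenseInCoset {R : Type u} [CommRing R] (S : Set R) (b : R) (I : Ideal R) : Prop :=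
  (∀ s ∈ S, s - b ∈ I) ∧
  ∀ p : Ideal R, p.IsPrime → p ≠ ⊥ → ∀ x, x - b ∈ I → ∀ n : ℕ, ∃ s ∈ S, s - x ∈ p ^ n

/-- The classification: `R` itself has a simultaneous ordering if and only if it is a polynomial
ring over a finite field, and a dense subset `S` of a coset `b + I` of a nonzero ideal has one if
and only if `R` is a polynomial ring over a finite field and `S` is the whole coset. -/
def Classification (R : Type u) [CommRing R] : Prop :=
  (HasSimultaneousOrdering (Set.univ : Set R) ↔ IsPolyRing R) ∧
  ∀ (S : Set R) (b : R) (I : Ideal R), I ≠ ⊥ → DenseInCoset S b I →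
    (HasSimultaneousOrdering S ↔ IsPolyRing R ∧ ∀ x, x - b ∈ I → x ∈ S)

section ff

variable (Fq : Type*) [Field Fq]

open Classical in
/-- the valuation ring of `Fq(t)` at infinity: the rational functions of degree at most `0` -/
noncomputable def Oinf : ValuationSubring (RatFunc Fq) := (RatFunc.inftyValuation Fq).valuationSubring

/-- `K` has exactly one place above the place `∞` of `Fq(t)`: exactly one valuation ring of `K` lies
over the valuation ring of `Fq(t)` at infinity -/
def OnePlaceAtInfinity (Fq : Type*) [Field Fq] (K : Type*) [Field K] [Algebra (RatFunc Fq) K] :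
    Prop :=
  ∃! V : ValuationSubring K, V.comap (algebraMap (RatFunc Fq) K) = Oinf Fq

end ff

end Pool.Agent.Work.MP_b29d7f_nt.Ded
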