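import Pool.Agent.Work.MP_b29d7f_nt.Ded.Digits

/-!
# Simultaneous orderings of dense subsets of cosets of ideals
-/

set_option linter.unusedSectionVars false

namespace Pool.Agent.Work.MP_b29d7f_nt.Ded

open Finset Polynomial

universe u

variable {R : Type u} [CommRing R] [IsDedekindDomain R] [Ring.HasFiniteQuotients R]

theorem ordering_of_equiv [Infinite R] {k : Type*} [Field k] [Finite k] (e : R ≃+* k[X]) :
    ∃ α : ℕ → R, ∀ p : Ideal R, p.IsPrime → p ≠ ⊥ → IsPOrdering Set.univ p α := by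
  classical
  set q := Nat.card k with hq
  have hq2 : 2 ≤ q := Finite.one_lt_card
  have hq0 : 0 < q := by omega
  -- digits
  set f : Fin q ≃ k := (Finite.equivFin k).symm with hf
  set g : Fin q ≃ k := f.trans (Equiv.swap (f ⟨0, hq0⟩) 0) with hg
  set ε : ℕ → k := fun n => if h : n < q then g ⟨n, h⟩ else 0 with hε
  have hε0 : ε 0 = 0 := by
    rw [hε]
    simp only [hq0, dif_pos]
    rw [hg, Equiv.trans_apply, Equiv.swap_apply_left]
  have hεinj : ∀ i < q, ∀ j < q, ε i = ε j → i = j := by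
    intro i hi j hj h
    rw [hε] at h
    simp only [hi, hj, dif_pos] at h
    have := g.injective h
    exact Fin.mk.inj_iff.mp this
  have hεsurj : ∀ c : k, ∃ i < q, ε i = c := by
    intro c
    obtain ⟨⟨i, hi⟩, hic⟩ := g.surjective c
    refine ⟨i, hi, ?_⟩
    rw [hε]
    simp only [hi, dif_pos]
    exact hic
  have hPID : IsPrincipalIdealRing R :=
    IsPrincipalIdealRing.of_surjective (e.symm : k[X] →+* R) e.symm.surjective
  refine ⟨fun n => e.symm (dig q ε n), fun p hp h0 => ?_⟩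
  have hinj : Function.Injective fun n => e.symm (dig q ε n) :=
    e.symm.injective.comp (dig_inj hq2 hε0 hεinj)
  -- generators of the powers of `p`
  have hgen : ∀ i : ℕ, ∃ γ : R, p ^ i = Ideal.span {γ} := fun i =>
    ⟨Submodule.IsPrincipal.generator (p ^ i), (Ideal.span_singleton_generator _).symm⟩
  choose γ hγ using hgen
  have hγ0 : ∀ i, e (γ i) ≠ 0 := by
    intro i h
    rw [map_eq_zero_iff e e.injective] at h
    have h1 := hγ i
    rw [h, Ideal.span_singleton_zero] at h1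
    exact pow_ne_zero i h0 h1
  have hmem : ∀ i (x : R), x ∈ p ^ i ↔ e (γ i) ∣ e x := by
    intro i x
    rw [hγ i, Ideal.mem_span_singleton, map_dvd_iff e]
  have hcnt : ∀ (n i : ℕ) (s : R), cnt p (fun n => e.symm (dig q ε n)) n i s =
      ((range n).filter fun j => e (γ i) ∣ e s - dig q ε j).card := by
    intro n i s
    unfold cnt
    congr 1
    refine Finset.filter_congr fun j _ => ?_
    rw [hmem, map_sub, e.apply_symm_apply]
  refine isPOrdering_of_balanced hp h0 hinj (fun i => q ^ (e (γ i)).natDegree) ?_ ?_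
  · intro i n s
    rw [hcnt]
    exact dig_count_ge hq2 hε0 hεsurj (hγ0 i) (e s) n
  · intro i n
    rw [hcnt]
    simp only [e.apply_symm_apply]
    exact dig_count_le hq2 hε0 hεinj (hγ0 i) n

theorem coset_ordering {α : ℕ → R}
    (hα : ∀ p : Ideal R, p.IsPrime → p ≠ ⊥ → IsPOrdering Set.univ p α) (b c : R) :
    HasSimultaneousOrdering {x : R | x - b ∈ Ideal.span {c}} := by
  refine ⟨fun n => b + c * α n, fun p hp h0 => ⟨fun n => ?_, fun n s hs => ?_⟩⟩
  · rw [Set.mem_ofPred_eq, add_sub_cancel_left]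
    exact Ideal.mul_mem_right _ _ (Ideal.mem_span_singleton_self c)
  · rw [Set.mem_ofPred_eq, Ideal.mem_span_singleton] at hs
    obtain ⟨t, ht⟩ := hs
    have h1 : ∀ y : R, ∏ i ∈ range n, (b + c * y - (b + c * α i)) =
        c ^ n * ∏ i ∈ range n, (y - α i) := by
      intro y
      have h2 : ∀ i ∈ range n, b + c * y - (b + c * α i) = c * (y - α i) := fun i _ => by ring
      rw [Finset.prod_congr rfl h2, Finset.prod_mul_distrib, Finset.prod_const, Finset.card_range]
    have hs' : s = b + c * t := by rw [← ht]; ring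
    simp only
    rw [hs', h1, h1, val_mul hp h0, val_mul hp h0]
    exact add_le_add le_rfl ((hα p hp h0).2 n t (Set.mem_univ t))

theorem prod_sub_mem {I : Ideal R} {n : ℕ} {a : ℕ → R} {s x : R} (h : s - x ∈ I) :
    ∏ i ∈ range n, (s - a i) - ∏ i ∈ range n, (x - a i) ∈ I := by
  rw [← Ideal.Quotient.eq, map_prod, map_prod]
  refine Finset.prod_congr rfl fun i _ => ?_
  rw [map_sub, map_sub, (Ideal.Quotient.eq.mpr h)]

/-- from an ordering of a dense subset of a coset to an ordering of the ring -/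
theorem reduce [Infinite R] {S : Set R} {b : R} {I : Ideal R} (hI : I ≠ ⊥)
    (hS : ∀ s ∈ S, s - b ∈ I)
    (hd : ∀ p : Ideal R, p.IsPrime → p ≠ ⊥ → ∀ x, x - b ∈ I → ∀ n : ℕ, ∃ s ∈ S, s - x ∈ p ^ n)
    (hprime : ∃ p : Ideal R, p.IsPrime ∧ p ≠ ⊥)
    {a : ℕ → R} (ha : ∀ p : Ideal R, p.IsPrime → p ≠ ⊥ → IsPOrdering S p a) :
    ∃ c : R, I = Ideal.span {c} ∧ ∃ α : ℕ → R, (∀ i, a i = a 0 + c * α i) ∧
      ∀ p : Ideal R, p.IsPrime → p ≠ ⊥ → IsPOrdering Set.univ p α := by
  classical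
  obtain ⟨p₀, hp₀, hp₀0⟩ := hprime
  have haS : ∀ i, a i - b ∈ I := fun i => hS _ ((ha p₀ hp₀ hp₀0).1 i)
  have haI : ∀ i, a i - a 0 ∈ I := by
    intro i
    have := I.sub_mem (haS i) (haS 0)
    rwa [sub_sub_sub_cancel_right] at this
  set c := a 1 - a 0 with hc
  have key : ∀ p : Ideal R, p.IsPrime → p ≠ ⊥ → ∀ n : ℕ, c ∈ p ^ n → I ≤ p ^ n := by
    intro p hp h0 n hcn y hy
    obtain ⟨s, hs, hsn⟩ := hd p hp h0 (a 0 + y) (by
      have := I.add_mem (haS 0) hy
      have h2 : a 0 + y - b = a 0 - b + y := by ring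
      rwa [h2]) n
    have h1 := (ha p hp h0).2 1 s hs
    rw [Finset.prod_range_one, Finset.prod_range_one, val_le_val_iff] at h1
    have h2 := h1 n hcn
    have h3 := (p ^ n).sub_mem h2 hsn
    have h4 : s - a 0 - (s - (a 0 + y)) = y := by ring
    rwa [h4] at h3
  have hc0 : c ≠ 0 := by
    intro h
    apply hI
    rw [eq_bot_iff]
    intro y hy
    rw [Ideal.mem_bot]
    refine mem_pow_imp_eq_zero hp₀ hp₀0 (J := nrm y) Nat.lt_two_pow_self ?_
    exact key p₀ hp₀ hp₀0 _ (by rw [h]; exact zero_mem _) hy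
  have hIc : I = Ideal.span {c} := by
    refine le_antisymm ?_ ((Ideal.span_singleton_le_iff_mem I).mpr (haI 1))
    rw [← Ideal.dvd_iff_le]
    refine (UniqueFactorizationMonoid.dvd_iff_emultiplicity_le
      (by rwa [Ne, Ideal.zero_eq_bot, Ideal.span_singleton_eq_bot])).mpr fun P hP => ?_
    rw [emultiplicity_le_emultiplicity_iff]
    intro n hn
    rw [Ideal.dvd_iff_le]
    exact key P (Ideal.isPrime_of_prime hP) hP.ne_zero n (Ideal.dvd_span_singleton.mp hn)
  refine ⟨c, hIc, ?_⟩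
  have hex : ∀ i, ∃ t, a i = a 0 + c * t := by
    intro i
    have h1 := haI i
    rw [hIc, Ideal.mem_span_singleton] at h1
    obtain ⟨t, ht⟩ := h1
    exact ⟨t, by rw [← ht]; ring⟩
  choose α hα using hex
  refine ⟨α, hα, fun p hp h0 => ⟨fun _ => Set.mem_univ _, fun k t _ => ?_⟩⟩
  rw [val_le_val_iff]
  intro n hn
  obtain ⟨m, hm⟩ := ENat.ne_top_iff_exists.mp (val_ne_top hp h0 hc0)
  set x := a 0 + c * t with hx
  have hxI : x - b ∈ I := by
    have h1 : x - b = (a 0 - b) + c * t := by rw [hx]; ring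
    rw [h1]
    exact I.add_mem (haS 0) (Ideal.mul_mem_right _ _ (haI 1))
  obtain ⟨s, hs, hsn⟩ := hd p hp h0 x hxI (k * m + n)
  have hprod : ∀ y : R, ∏ i ∈ range k, (a 0 + c * y - a i) = c ^ k * ∏ i ∈ range k, (y - α i) := by
    intro y
    have h2 : ∀ i ∈ range k, a 0 + c * y - a i = c * (y - α i) := fun i _ => by
      rw [hα i]; ring
    rw [Finset.prod_congr rfl h2, Finset.prod_mul_distrib, Finset.prod_const, Finset.card_range]
  have hvalc : ∀ y : R, val p (c ^ k * y) = ((k * m : ℕ) : ℕ∞) + val p y := by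
    intro y
    rw [val_mul hp h0, val_pow hp h0, ← hm]
    push_cast
    rfl
  have h1 := (ha p hp h0).2 k s hs
  rw [val_le_val_iff] at h1
  have h2 : ∏ i ∈ range k, (a k - a i) ∈ p ^ (k * m + n) := by
    have h3 : ∏ i ∈ range k, (a k - a i) = c ^ k * ∏ i ∈ range k, (α k - α i) := by
      rw [← hprod (α k), ← hα k]
    rw [h3, ← pow_le_val, hvalc]
    push_cast
    exact add_le_add le_rfl (pow_le_val.mpr hn)
  have h4 := h1 _ h2
  have h5 : ∏ i ∈ range k, (x - a i) ∈ p ^ (k * m + n) := by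
    have := (p ^ (k * m + n)).sub_mem h4 (prod_sub_mem (n := k) (a := a) hsn)
    rwa [sub_sub_cancel] at this
  rw [hx, hprod t, ← pow_le_val, hvalc] at h5
  rw [← pow_le_val]
  push_cast at h5
  have hne : ((k : ℕ∞) * m) ≠ ⊤ := by
    rw [← Nat.cast_mul]; exact ENat.natCast_ne_top _
  exact (ENat.add_le_add_iff_left hne).mp h5

/-- **main theorem on Dedekind domains with an ultrametric norm** -/
theorem dense_iff (hU : UltraNorm R) (hnf : ¬ IsField R) {S : Set R} {b : R} {I : Ideal R}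
    (hI : I ≠ ⊥) (hS : ∀ s ∈ S, s - b ∈ I)
    (hd : ∀ p : Ideal R, p.IsPrime → p ≠ ⊥ → ∀ x, x - b ∈ I → ∀ n : ℕ, ∃ s ∈ S, s - x ∈ p ^ n) :
    HasSimultaneousOrdering S ↔
      (∃ (k : Type u) (_ : Field k) (_ : Finite k), Nonempty (R ≃+* k[X])) ∧
        ∀ x, x - b ∈ I → x ∈ S := by
  have := infinite_of_not_isField hnf
  constructor
  · rintro ⟨a, ha⟩
    obtain ⟨p₀, hp₀0, hp₀⟩ := Ring.not_isField_iff_exists_prime.mp hnf
    obtain ⟨c, hIc, α, haα, hα⟩ := reduce hI hS hd ⟨p₀, hp₀, hp₀0⟩ ha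
    obtain ⟨x, hx⟩ := exists_nrm_eq hU hnf hα
    refine ⟨equiv_poly hU hnf hx, fun x hx => ?_⟩
    have h1 : x - a 0 ∈ I := by
      have h2 := I.sub_mem hx (hS _ ((ha p₀ hp₀ hp₀0).1 0))
      rwa [sub_sub_sub_cancel_right] at h2
    rw [hIc, Ideal.mem_span_singleton] at h1
    obtain ⟨t, ht⟩ := h1
    obtain ⟨i, hi⟩ := surjective hU hnf hα t
    have h3 : x = a i := by rw [haα i, hi, ← ht]; ring
    rw [h3]
    exact (ha p₀ hp₀ hp₀0).1 i
  · rintro ⟨⟨k, hk, hkf, ⟨e⟩⟩, hall⟩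
    obtain ⟨α, hα⟩ := ordering_of_equiv e
    have hPID : IsPrincipalIdealRing R :=
      IsPrincipalIdealRing.of_surjective (e.symm : k[X] →+* R) e.symm.surjective
    have hIc : I = Ideal.span {Submodule.IsPrincipal.generator I} :=
      (Ideal.span_singleton_generator I).symm
    have hSeq : S = {x : R | x - b ∈ Ideal.span {Submodule.IsPrincipal.generator I}} := by
      rw [← hIc]
      ext x
      exact ⟨fun h => hS x h, fun h => hall x h⟩
    rw [hSeq]
    exact coset_ordering hα b _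

/-- the whole ring -/
theorem univ_iff (hU : UltraNorm R) (hnf : ¬ IsField R) :
    HasSimultaneousOrdering (Set.univ : Set R) ↔
      ∃ (k : Type u) (_ : Field k) (_ : Finite k), Nonempty (R ≃+* k[X]) := by
  rw [dense_iff hU hnf (S := Set.univ) (b := 0) (I := ⊤) top_ne_bot (fun _ _ => Submodule.mem_top)
    (fun p _ _ x _ n => ⟨x, Set.mem_univ x, by rw [sub_self]; exact zero_mem _⟩)]
  exact ⟨fun h => h.1, fun h => ⟨h, fun x _ => Set.mem_univ x⟩⟩

theorem classification (hU : UltraNorm R) (hnf : ¬ IsField R) : Classification R :=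
  ⟨univ_iff hU hnf, fun _ _ _ hI h => dense_iff hU hnf hI h.1 h.2⟩

end Pool.Agent.Work.MP_b29d7f_nt.Ded
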