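import Pool.Agent.Work.MP_b29d7f_nt.Ded.Greedy

/-!
# Balls of an ultrametric norm are balanced
-/

set_option linter.unusedSectionVars false

namespace Pool.Agent.Work.MP_b29d7f_nt.Ded

open Finset

/-! ### domination -/

theorem log_eq_sum (m T : ℕ) (hm : 1 ≤ m) (hT : m ≤ T) :
    Real.log m = ∑ s ∈ Finset.Ico 1 T,
      (if s < m then (Real.log ((s : ℝ) + 1) - Real.log s) else 0) := by
  induction T, hT using Nat.le_induction with
  | base =>
    have h1 : ∑ s ∈ Finset.Ico 1 m, (if s < m then (Real.log ((s : ℝ) + 1) - Real.log s) else 0) =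
        ∑ s ∈ Finset.Ico 1 m, (Real.log ((s : ℝ) + 1) - Real.log s) :=
      Finset.sum_congr rfl fun s hs => if_pos (Finset.mem_Ico.mp hs).2
    rw [h1]
    induction m, hm using Nat.le_induction with
    | base => simp
    | succ m hm ih =>
      rw [Finset.sum_Ico_succ_top hm, ← ih]
      · push_cast; ring
      · exact Finset.sum_congr rfl fun s hs => if_pos (Finset.mem_Ico.mp hs).2
  | succ T hT ih =>
    rw [Finset.sum_Ico_succ_top (hm.trans hT), ← ih, if_neg (by omega), add_zero]

theorem sum_log_eq {ι : Type*} (U : Finset ι) (f : ι → ℕ) (hf : ∀ u ∈ U, 0 < f u) (T : ℕ)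
    (hT : ∀ u ∈ U, f u ≤ T) :
    ∑ u ∈ U, Real.log (f u) = ∑ s ∈ Finset.Ico 1 T,
      (Real.log ((s : ℝ) + 1) - Real.log s) * ((U.card : ℝ) - (U.filter fun u => f u ≤ s).card) := by
  classical
  rw [Finset.sum_congr rfl fun u hu => log_eq_sum (f u) T (hf u hu) (hT u hu), Finset.sum_comm]
  refine Finset.sum_congr rfl fun s _ => ?_
  rw [← Finset.sum_filter, Finset.sum_const, nsmul_eq_mul, mul_comm]
  congr 1
  have h1 := Finset.card_filter_add_card_filter_not (s := U) (fun u => f u ≤ s)
  have h2 : (U.filter fun u => ¬ f u ≤ s) = U.filter fun u => s < f u := by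
    refine Finset.filter_congr fun u _ => by simp
  rw [h2] at h1
  have h3 : ((U.filter fun u => f u ≤ s).card : ℝ) + (U.filter fun u => s < f u).card = U.card := by
    exact_mod_cast h1
  linarith

theorem dom {ι κ : Type*} (U : Finset ι) (W : Finset κ) (f : ι → ℕ) (g : κ → ℕ)
    (hf : ∀ u ∈ U, 0 < f u) (hg : ∀ w ∈ W, 0 < g w) (hcard : U.card = W.card)
    (h : ∀ s, (U.filter fun u => f u ≤ s).card ≤ (W.filter fun w => g w ≤ s).card) :
    ∏ w ∈ W, g w ≤ ∏ u ∈ U, f u ∧
      (∏ w ∈ W, g w = ∏ u ∈ U, f u →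
        ∀ s, 0 < s → (U.filter fun u => f u ≤ s).card = (W.filter fun w => g w ≤ s).card) := by
  classical
  set T := max (U.sup f) (W.sup g) with hT
  have hfT : ∀ u ∈ U, f u ≤ T := fun u hu => (Finset.le_sup hu).trans (le_max_left _ _)
  have hgT : ∀ w ∈ W, g w ≤ T := fun w hw => (Finset.le_sup hw).trans (le_max_right _ _)
  have hposf : (0 : ℝ) < ∏ u ∈ U, (f u : ℝ) :=
    Finset.prod_pos fun u hu => by exact_mod_cast hf u hu
  have hposg : (0 : ℝ) < ∏ w ∈ W, (g w : ℝ) :=
    Finset.prod_pos fun w hw => by exact_mod_cast hg w hw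
  have hlogf : Real.log (∏ u ∈ U, (f u : ℝ)) = ∑ u ∈ U, Real.log (f u) :=
    Real.log_prod (fun u hu => by have := hf u hu; positivity)
  have hlogg : Real.log (∏ w ∈ W, (g w : ℝ)) = ∑ w ∈ W, Real.log (g w) :=
    Real.log_prod (fun u hu => by have := hg u hu; positivity)
  have hw : ∀ s ∈ Finset.Ico 1 T, 0 < Real.log ((s : ℝ) + 1) - Real.log s := by
    intro s hs
    rw [Finset.mem_Ico] at hs
    have h1 : (0 : ℝ) < s := by exact_mod_cast hs.1
    have := Real.log_lt_log h1 (show (s : ℝ) < s + 1 by linarith)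
    linarith
  have hterm : ∀ s ∈ Finset.Ico 1 T,
      (Real.log ((s : ℝ) + 1) - Real.log s) * ((W.card : ℝ) - (W.filter fun w => g w ≤ s).card) ≤
      (Real.log ((s : ℝ) + 1) - Real.log s) * ((U.card : ℝ) - (U.filter fun u => f u ≤ s).card) := by
    intro s hs
    refine mul_le_mul_of_nonneg_left ?_ (hw s hs).le
    have h1 : ((U.filter fun u => f u ≤ s).card : ℝ) ≤ (W.filter fun w => g w ≤ s).card := by
      exact_mod_cast h s
    rw [hcard]
    linarith
  have hle : ∑ w ∈ W, Real.log (g w) ≤ ∑ u ∈ U, Real.log (f u) := by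
    rw [sum_log_eq U f hf T hfT, sum_log_eq W g hg T hgT]
    exact Finset.sum_le_sum hterm
  refine ⟨?_, fun heq s hs0 => ?_⟩
  · rw [← hlogf, ← hlogg] at hle
    have := (Real.log_le_log_iff hposg hposf).mp hle
    exact_mod_cast this
  · by_cases hsT : s < T
    · have heq' : ∑ w ∈ W, Real.log (g w) = ∑ u ∈ U, Real.log (f u) := by
        rw [← hlogf, ← hlogg]
        congr 1
        exact_mod_cast heq
      rw [sum_log_eq U f hf T hfT, sum_log_eq W g hg T hgT] at heq'
      have h1 := (Finset.sum_eq_sum_iff_of_le hterm).mp heq' s (Finset.mem_Ico.mpr ⟨hs0, hsT⟩)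
      have h2 := mul_left_cancel₀ (hw s (Finset.mem_Ico.mpr ⟨hs0, hsT⟩)).ne' h1
      rw [hcard] at h2
      have h3 : ((U.filter fun u => f u ≤ s).card : ℝ) = (W.filter fun w => g w ≤ s).card := by
        linarith
      exact_mod_cast h3
    · push Not at hsT
      rw [Finset.filter_true_of_mem fun u hu => (hfT u hu).trans hsT,
        Finset.filter_true_of_mem fun w hw => (hgT w hw).trans hsT, hcard]

/-! ### symmetric double sums -/

theorem sum_erase_symm {M : Type*} [CommSemiring M] (F : ℕ → ℕ → M) (hF : ∀ i j, F i j = F j i)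
    (n : ℕ) : ∑ k ∈ range n, ∑ i ∈ (range n).erase k, F k i =
      2 * ∑ k ∈ range n, ∑ i ∈ range k, F k i := by
  classical
  induction n with
  | zero => simp
  | succ n ih =>
    rw [Finset.sum_range_succ, Finset.sum_range_succ (n := n)]
    have h1 : (range (n + 1)).erase n = range n := by
      ext i
      rw [Finset.mem_erase, Finset.mem_range, Finset.mem_range]
      omega
    have h2 : ∀ k ∈ range n, ∑ i ∈ (range (n + 1)).erase k, F k i =
        ∑ i ∈ (range n).erase k, F k i + F k n := by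
      intro k hk
      rw [Finset.mem_range] at hk
      have h3 : (range (n + 1)).erase k = insert n ((range n).erase k) := by
        ext i
        simp only [Finset.mem_erase, Finset.mem_range, Finset.mem_insert]
        omega
      rw [h3, Finset.sum_insert, add_comm]
      simp
    rw [Finset.sum_congr rfl h2, Finset.sum_add_distrib, ih, h1, mul_add, two_mul (∑ i ∈ range n, F n i)]
    rw [Finset.sum_congr rfl fun k _ => hF k n]
    ring

variable {R : Type*} [CommRing R] [IsDedekindDomain R] [Ring.HasFiniteQuotients R]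

theorem infinite_of_not_isField (hnf : ¬ IsField R) : Infinite R := by
  by_contra h
  rw [not_infinite_iff_finite] at h
  exact hnf (Finite.isField_of_domain R)

theorem ball_finite (hU : UltraNorm R) (hnf : ¬ IsField R) (r : ℕ) : {x : R | nrm x ≤ r}.Finite := by
  have := infinite_of_not_isField hnf
  obtain ⟨p, h0, hp⟩ := Ring.not_isField_iff_exists_prime.mp hnf
  have hfin : Finite (R ⧸ p ^ r) :=
    Ring.HasFiniteQuotients.finiteQuotient (pow_ne_zero r h0)
  refine Set.Finite.of_finite_image (f := Ideal.Quotient.mk (p ^ r)) (Set.toFinite _) ?_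
  intro x hx y hy hxy
  rw [Ideal.Quotient.eq] at hxy
  have h1 : nrm (x - y) ≤ r := by
    have h2 := hU x (-y)
    rw [nrm_neg, ← sub_eq_add_neg] at h2
    exact h2.trans (max_le hx hy)
  have h3 : r < 2 ^ r := Nat.lt_two_pow_self
  exact sub_eq_zero.mp (mem_pow_imp_eq_zero hp h0 (by omega) hxy)

open scoped Classical in
/-- the ball of radius `r` -/
noncomputable def ball (R : Type*) [CommRing R] (r : ℕ) : Finset R :=
  if h : {x : R | nrm x ≤ r}.Finite then h.toFinset else ∅

theorem mem_ball (hU : UltraNorm R) (hnf : ¬ IsField R) {r : ℕ} {x : R} :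
    x ∈ ball R r ↔ nrm x ≤ r := by
  rw [ball, dif_pos (ball_finite hU hnf r), Set.Finite.mem_toFinset]
  rfl

open scoped Classical in
/-- number of elements of the ball of radius `r` which lie in `p ^ i` -/
noncomputable def kap (p : Ideal R) (r i : ℕ) : ℕ := ((ball R r).filter fun x => x ∈ p ^ i).card

theorem sub_mem_ball (hU : UltraNorm R) (hnf : ¬ IsField R) {r : ℕ} {x y : R} (hx : x ∈ ball R r)
    (hy : y ∈ ball R r) : x - y ∈ ball R r := by
  rw [mem_ball hU hnf] at hx hy ⊢
  have h2 := hU x (-y)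
  rw [nrm_neg, ← sub_eq_add_neg] at h2
  exact h2.trans (max_le hx hy)

theorem add_mem_ball (hU : UltraNorm R) (hnf : ¬ IsField R) {r : ℕ} {x y : R} (hx : x ∈ ball R r)
    (hy : y ∈ ball R r) : x + y ∈ ball R r := by
  rw [mem_ball hU hnf] at hx hy ⊢
  exact (hU x y).trans (max_le hx hy)

theorem zero_mem_ball (hU : UltraNorm R) (hnf : ¬ IsField R) (r : ℕ) : (0 : R) ∈ ball R r := by
  have := infinite_of_not_isField hnf
  rw [mem_ball hU hnf, nrm_zero]
  exact Nat.zero_le _

/-- pigeonhole / Lagrange -/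
theorem card_ball_le (hU : UltraNorm R) (hnf : ¬ IsField R) (r : ℕ) {I : Ideal R} (hI : I ≠ ⊥)
    (F : Finset R) (hF : ∀ x, x ∈ F ↔ x ∈ ball R r ∧ x ∈ I) :
    (ball R r).card ≤ F.card * Nm I := by
  classical
  have hfin : Finite (R ⧸ I) := Ring.HasFiniteQuotients.finiteQuotient hI
  have := Fintype.ofFinite (R ⧸ I)
  have h1 : (ball R r).card ≤ F.card * ((ball R r).image (Ideal.Quotient.mk I)).card := by
    refine Finset.card_le_mul_card_image _ _ fun c hc => ?_
    rw [Finset.mem_image] at hc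
    obtain ⟨x, hx, rfl⟩ := hc
    refine Finset.card_le_card_of_injOn (fun y => y - x) (fun y hy => ?_) (fun y _ z _ h => ?_)
    · rw [Finset.mem_coe, Finset.mem_filter] at hy
      rw [Finset.mem_coe, hF]
      exact ⟨sub_mem_ball hU hnf hy.1 hx, by rw [← Ideal.Quotient.eq]; exact hy.2⟩
    · simpa using h
  refine h1.trans (Nat.mul_le_mul_left _ ?_)
  refine (Finset.card_le_univ _).trans ?_
  rw [← Nat.card_eq_fintype_card]
  exact le_rfl

theorem kap_pos (hU : UltraNorm R) (hnf : ¬ IsField R) (p : Ideal R) (r i : ℕ) : 1 ≤ kap p r i := by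
  classical
  refine Finset.card_pos.mpr ⟨0, ?_⟩
  rw [Finset.mem_filter]
  exact ⟨zero_mem_ball hU hnf r, zero_mem _⟩

theorem card_ball_le_kap (hU : UltraNorm R) (hnf : ¬ IsField R) {p : Ideal R} (h0 : p ≠ ⊥)
    (r i : ℕ) : (ball R r).card ≤ kap p r i * Nm p ^ i := by
  classical
  have := infinite_of_not_isField hnf
  rw [← Nm_pow]
  exact card_ball_le hU hnf r (pow_ne_zero i h0) _ fun x => by rw [Finset.mem_filter]

/-- the valuation of the product of the nonzero elements of a ball -/
theorem val_ball (hU : UltraNorm R) (hnf : ¬ IsField R) {p : Ideal R} (hp : p.IsPrime) (h0 : p ≠ ⊥)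
    {r J : ℕ} (hJ : r < 2 ^ (J + 1)) [DecidableEq R] :
    val p (∏ b ∈ (ball R r).erase 0, b) = ((∑ i ∈ Finset.Icc 1 J, (kap p r i - 1) : ℕ) : ℕ∞) := by
  classical
  have := infinite_of_not_isField hnf
  have hnot : ∀ b ∈ (ball R r).erase 0, b ∉ p ^ (J + 1) := by
    intro b hb hmem
    rw [Finset.mem_erase, mem_ball hU hnf] at hb
    exact hb.1 (mem_pow_imp_eq_zero hp h0 (by omega) hmem)
  rw [val_prod hp h0, Finset.sum_congr rfl fun b hb => val_eq_tv (hnot b hb), ← Nat.cast_sum,
    sum_tv]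
  congr 1
  refine Finset.sum_congr rfl fun i _ => ?_
  have h1 : ((ball R r).erase 0).filter (fun b => b ∈ p ^ i) =
      ((ball R r).filter fun b => b ∈ p ^ i).erase 0 := by
    ext x
    simp only [Finset.mem_filter, Finset.mem_erase]
    tauto
  rw [h1, Finset.card_erase_of_mem]
  · rfl
  · rw [Finset.mem_filter]
    exact ⟨zero_mem_ball hU hnf r, zero_mem _⟩

end Pool.Agent.Work.MP_b29d7f_nt.Ded
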