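import Pool.Agent.Work.MP_b29d7f_nt.Ded.Defs

/-!
# Simultaneous `𝔭`-orderings in Dedekind domains: norms, valuations
-/

set_option linter.unusedSectionVars false

namespace Pool.Agent.Work.MP_b29d7f_nt.Ded

open Finset

/-- the norm of an ideal: the cardinality of the quotient (`0` if it is infinite) -/
noncomputable def Nm {R : Type*} [CommRing R] (I : Ideal R) : ℕ := Nat.card (R ⧸ I)

variable {R : Type*} [CommRing R] [IsDedekindDomain R] [Ring.HasFiniteQuotients R]

theorem Nm_mul [Infinite R] (I J : Ideal R) : Nm (I * J) = Nm I * Nm J := by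
  have h := UniqueFactorizationMonoid.multiplicative_of_coprime
      (Submodule.cardQuot (R := R) (M := R)) I J
      (Submodule.cardQuot_bot _ _)
      (fun {I J} hI => by simp [Ideal.isUnit_iff.mp hI, Ideal.mul_top])
      (fun {I} i hI =>
        have : Ideal.IsPrime I := Ideal.isPrime_of_prime hI
        cardQuot_pow_of_prime hI.ne_zero)
      fun {I J} hIJ => cardQuot_mul_of_coprime <| Ideal.isCoprime_iff_sup_eq.mpr
        (Ideal.isUnit_iff.mp
          (hIJ (Ideal.dvd_iff_le.mpr le_sup_left) (Ideal.dvd_iff_le.mpr le_sup_right)))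
  exact h

omit [IsDedekindDomain R] in
theorem Nm_pos {I : Ideal R} (hI : I ≠ ⊥) : 0 < Nm I := by
  have := Ring.HasFiniteQuotients.finiteQuotient hI
  exact Nat.card_pos

omit [IsDedekindDomain R] [Ring.HasFiniteQuotients R] in
theorem Nm_top : Nm (⊤ : Ideal R) = 1 := Submodule.cardQuot_top R R

omit [IsDedekindDomain R] [Ring.HasFiniteQuotients R] in
theorem Nm_eq_one {I : Ideal R} : Nm I = 1 ↔ I = ⊤ := Submodule.cardQuot_eq_one_iff

theorem Nm_pow [Infinite R] (I : Ideal R) (n : ℕ) : Nm (I ^ n) = Nm I ^ n := by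
  induction n with
  | zero => rw [pow_zero, pow_zero, Ideal.one_eq_top, Nm_top]
  | succ n ih => rw [pow_succ, Nm_mul, ih, pow_succ]

theorem Nm_prod [Infinite R] {ι : Type*} (s : Finset ι) (f : ι → Ideal R) :
    Nm (∏ i ∈ s, f i) = ∏ i ∈ s, Nm (f i) := by
  classical
  induction s using Finset.induction with
  | empty => rw [Finset.prod_empty, Finset.prod_empty, Ideal.one_eq_top, Nm_top]
  | insert a s has ih => rw [Finset.prod_insert has, Finset.prod_insert has, Nm_mul, ih]

omit [IsDedekindDomain R] in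
/-- a nonzero ideal contained in another one with norm at most the other norm is equal to it -/
theorem eq_of_le_of_Nm_le {I J : Ideal R} (hI : I ≠ ⊥) (h : I ≤ J) (hN : Nm I ≤ Nm J) : I = J := by
  have := Ring.HasFiniteQuotients.finiteQuotient hI
  have hsurj := Ideal.Quotient.factor_surjective h
  have : Finite (R ⧸ J) := Finite.of_surjective _ hsurj
  have hbij : Function.Bijective (Ideal.Quotient.factor h) := by
    refine (Nat.bijective_iff_surjective_and_card _).mpr ⟨hsurj, ?_⟩
    refine le_antisymm hN ?_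
    exact Nat.card_le_card_of_surjective _ hsurj
  refine le_antisymm h fun x hx => ?_
  rw [← Ideal.Quotient.eq_zero_iff_mem]
  apply hbij.1
  rw [map_zero, Ideal.Quotient.factor_mk]
  exact Ideal.Quotient.eq_zero_iff_mem.mpr hx

omit [IsDedekindDomain R] [Ring.HasFiniteQuotients R] in
theorem nrm_eq (x : R) : nrm x = Nm (Ideal.span {x}) := rfl

omit [Ring.HasFiniteQuotients R] [IsDedekindDomain R] in
theorem nrm_zero [Infinite R] : nrm (0 : R) = 0 := by
  rw [nrm_eq, Ideal.span_singleton_zero]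
  exact Submodule.cardQuot_bot R R

omit [Ring.HasFiniteQuotients R] [IsDedekindDomain R] in
theorem nrm_one : nrm (1 : R) = 1 := by
  rw [nrm_eq, Ideal.span_singleton_one, Nm_top]

omit [Ring.HasFiniteQuotients R] [IsDedekindDomain R] in
theorem nrm_eq_one {x : R} : nrm x = 1 ↔ IsUnit x := by
  rw [nrm_eq, Nm_eq_one, Ideal.span_singleton_eq_top]

theorem nrm_mul [Infinite R] (x y : R) : nrm (x * y) = nrm x * nrm y := by
  rw [nrm_eq, nrm_eq, nrm_eq, ← Ideal.span_singleton_mul_span_singleton, Nm_mul]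

theorem nrm_pow [Infinite R] (x : R) (n : ℕ) : nrm (x ^ n) = nrm x ^ n := by
  rw [nrm_eq, nrm_eq, ← Ideal.span_singleton_pow, Nm_pow]

omit [Ring.HasFiniteQuotients R] [IsDedekindDomain R] in
theorem nrm_neg (x : R) : nrm (-x) = nrm x := by
  rw [nrm_eq, nrm_eq, Ideal.span_singleton_neg]

omit [Ring.HasFiniteQuotients R] [IsDedekindDomain R] in
theorem nrm_sub_comm (x y : R) : nrm (x - y) = nrm (y - x) := by
  rw [← nrm_neg, neg_sub]

omit [IsDedekindDomain R] in
theorem nrm_pos {x : R} (hx : x ≠ 0) : 0 < nrm x := by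
  refine Nm_pos ?_
  rwa [Ne, Ideal.span_singleton_eq_bot]

theorem nrm_prod [Infinite R] {ι : Type*} (s : Finset ι) (f : ι → R) :
    nrm (∏ i ∈ s, f i) = ∏ i ∈ s, nrm (f i) := by
  classical
  induction s using Finset.induction with
  | empty => rw [Finset.prod_empty, Finset.prod_empty, nrm_one]
  | insert a s has ih => rw [Finset.prod_insert has, Finset.prod_insert has, nrm_mul, ih]

omit [IsDedekindDomain R] in
theorem Nm_le_nrm {I : Ideal R} {x : R} (hx : x ∈ I) (hx0 : x ≠ 0) : Nm I ≤ nrm x := by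
  have h0 : Ideal.span {x} ≠ ⊥ := by rwa [Ne, Ideal.span_singleton_eq_bot]
  have := Ring.HasFiniteQuotients.finiteQuotient h0
  have h : Ideal.span {x} ≤ I := (Ideal.span_singleton_le_iff_mem I).mpr hx
  exact Nat.card_le_card_of_surjective _ (Ideal.Quotient.factor_surjective h)

omit [IsDedekindDomain R] in
theorem span_eq_of_nrm_le {I : Ideal R} {x : R} (hx : x ∈ I) (hx0 : x ≠ 0) (h : nrm x ≤ Nm I) :
    Ideal.span {x} = I :=
  eq_of_le_of_Nm_le (by rwa [Ne, Ideal.span_singleton_eq_bot])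
    ((Ideal.span_singleton_le_iff_mem I).mpr hx) h

theorem one_lt_Nm {p : Ideal R} (hp : p.IsPrime) (h0 : p ≠ ⊥) : 1 < Nm p := by
  have h1 := Nm_pos h0
  have h2 : Nm p ≠ 1 := fun h => hp.ne_top (Nm_eq_one.mp h)
  omega

/-! ### valuations -/

omit [Ring.HasFiniteQuotients R] in
theorem pow_le_val {p : Ideal R} {x : R} {n : ℕ} : (n : ℕ∞) ≤ val p x ↔ x ∈ p ^ n := by
  rw [val, ← pow_dvd_iff_le_emultiplicity, Ideal.dvd_span_singleton]

omit [Ring.HasFiniteQuotients R] in
theorem val_le_val_iff {p : Ideal R} {x y : R} :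
    val p x ≤ val p y ↔ ∀ n : ℕ, x ∈ p ^ n → y ∈ p ^ n := by
  rw [val, val, emultiplicity_le_emultiplicity_iff]
  simp_rw [Ideal.dvd_span_singleton]

omit [Ring.HasFiniteQuotients R] in
theorem val_mul {p : Ideal R} (hp : p.IsPrime) (h0 : p ≠ ⊥) (x y : R) :
    val p (x * y) = val p x + val p y := by
  rw [val, ← Ideal.span_singleton_mul_span_singleton,
    emultiplicity_mul (Ideal.prime_of_isPrime h0 hp)]
  rfl

omit [Ring.HasFiniteQuotients R] in
theorem val_prod {p : Ideal R} (hp : p.IsPrime) (h0 : p ≠ ⊥) {ι : Type*} (s : Finset ι)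
    (f : ι → R) : val p (∏ i ∈ s, f i) = ∑ i ∈ s, val p (f i) := by
  classical
  induction s using Finset.induction with
  | empty =>
    rw [Finset.prod_empty, Finset.sum_empty, val, Ideal.span_singleton_one, ← Ideal.one_eq_top]
    exact emultiplicity_of_one_right (Ideal.prime_of_isPrime h0 hp).not_isUnit
  | insert a s has ih => rw [Finset.prod_insert has, Finset.sum_insert has, val_mul hp h0, ih]

omit [Ring.HasFiniteQuotients R] in
theorem val_zero {p : Ideal R} : val p (0 : R) = ⊤ := by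
  rw [ENat.eq_top_iff_forall_ge]
  intro n
  rw [pow_le_val]
  exact zero_mem _

theorem mem_pow_imp_eq_zero [Infinite R] {p : Ideal R} (hp : p.IsPrime) (h0 : p ≠ ⊥) {x : R} {J : ℕ}
    (hJ : nrm x < 2 ^ J) (hx : x ∈ p ^ J) : x = 0 := by
  by_contra hx0
  have h1 := Nm_le_nrm hx hx0
  rw [Nm_pow] at h1
  have h2 : 2 ^ J ≤ Nm p ^ J := Nat.pow_le_pow_left (one_lt_Nm hp h0) J
  omega

theorem val_ne_top {p : Ideal R} [Infinite R] (hp : p.IsPrime) (h0 : p ≠ ⊥) {x : R} (hx : x ≠ 0) :
    val p x ≠ ⊤ := by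
  intro h
  apply hx
  refine mem_pow_imp_eq_zero hp h0 (J := nrm x) Nat.lt_two_pow_self ?_
  rw [← pow_le_val, h]
  exact le_top

/-- truncated valuation -/
noncomputable def tv (p : Ideal R) (J : ℕ) (x : R) : ℕ := by
  classical
  exact ((Finset.Icc 1 J).filter fun i => x ∈ p ^ i).card

omit [Ring.HasFiniteQuotients R] [IsDedekindDomain R] in
theorem mem_pow_of_le {p : Ideal R} {x : R} {i j : ℕ} (hij : i ≤ j) (h : x ∈ p ^ j) : x ∈ p ^ i :=
  Ideal.pow_le_pow_right hij h

omit [Ring.HasFiniteQuotients R] in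
theorem tv_le_val (p : Ideal R) (J : ℕ) (x : R) : (tv p J x : ℕ∞) ≤ val p x := by
  classical
  rw [pow_le_val]
  unfold tv
  set F := (Finset.Icc 1 J).filter fun i => x ∈ p ^ i with hF
  rcases F.eq_empty_or_nonempty with h | h
  · rw [h, Finset.card_empty, pow_zero, Ideal.one_eq_top]
    exact Submodule.mem_top
  · set m := F.max' h with hm
    have hmF : m ∈ F := F.max'_mem h
    rw [hF, Finset.mem_filter, Finset.mem_Icc] at hmF
    refine mem_pow_of_le ?_ hmF.2
    have hsub : F ⊆ Finset.Icc 1 m := by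
      intro i hi
      have h1 := F.le_max' i hi
      rw [hF, Finset.mem_filter, Finset.mem_Icc] at hi
      exact Finset.mem_Icc.mpr ⟨hi.1.1, h1⟩
    have := Finset.card_le_card hsub
    rwa [Nat.card_Icc, Nat.add_sub_cancel] at this

omit [Ring.HasFiniteQuotients R] in
theorem val_eq_tv {p : Ideal R} {J : ℕ} {x : R} (h : x ∉ p ^ (J + 1)) : val p x = tv p J x := by
  classical
  refine le_antisymm ?_ (tv_le_val p J x)
  have h1 : val p x < ((J + 1 : ℕ) : ℕ∞) := by
    rw [← not_le, pow_le_val]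
    exact h
  obtain ⟨v, hv⟩ := ENat.ne_top_iff_exists.mp (ne_top_of_lt h1)
  rw [← hv] at h1 ⊢
  have h2 : v < J + 1 := by exact_mod_cast h1
  have h3 : x ∈ p ^ v := by rw [← pow_le_val, ← hv]
  have h4 : v ≤ tv p J x := by
    unfold tv
    have hsub : Finset.Icc 1 v ⊆ (Finset.Icc 1 J).filter fun i => x ∈ p ^ i := by
      intro i hi
      rw [Finset.mem_Icc] at hi
      rw [Finset.mem_filter, Finset.mem_Icc]
      exact ⟨⟨hi.1, by omega⟩, mem_pow_of_le hi.2 h3⟩
    have := Finset.card_le_card hsub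
    rwa [Nat.card_Icc, Nat.add_sub_cancel] at this
  exact_mod_cast h4

open scoped Classical in
/-- the sum of the truncated valuations, by levels -/
theorem sum_tv {p : Ideal R} {J : ℕ} {ι : Type*} (s : Finset ι) (f : ι → R) :
    ∑ i ∈ s, tv p J (f i) = ∑ j ∈ Finset.Icc 1 J, (s.filter fun i => f i ∈ p ^ j).card := by
  unfold tv
  simp_rw [Finset.card_filter]
  rw [Finset.sum_comm]

end Pool.Agent.Work.MP_b29d7f_nt.Ded
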