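import Pool.Agent.Work.MP_b29d7f_nt.Ded.Poly

/-!
# The standard ordering of a polynomial ring over a finite field
-/

set_option linter.unusedSectionVars false

namespace Pool.Agent.Work.MP_b29d7f_nt.Ded

open Finset Polynomial

/-! ### a criterion for being a `p`-ordering -/

section crit

variable {R : Type*} [CommRing R] [IsDedekindDomain R] [Ring.HasFiniteQuotients R]

theorem isPOrdering_of_balanced [Infinite R] {p : Ideal R} (hp : p.IsPrime) (h0 : p ≠ ⊥)
    {α : ℕ → R} (hinj : Function.Injective α) (M : ℕ → ℕ)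
    (h1 : ∀ i k s, k / M i ≤ cnt p α k i s) (h2 : ∀ i k, cnt p α k i (α k) ≤ k / M i) :
    IsPOrdering Set.univ p α := by
  classical
  refine ⟨fun k => Set.mem_univ _, fun k s _ => ?_⟩
  set J := (range k).sup (fun j => nrm (α k - α j)) with hJ
  have hnot : ∀ j ∈ range k, α k - α j ∉ p ^ (J + 1) := by
    intro j hj hmem
    have h3 : nrm (α k - α j) ≤ J := Finset.le_sup (f := fun j => nrm (α k - α j)) hj
    have h4 : J < 2 ^ J := Nat.lt_two_pow_self
    have h5 : 2 ^ J ≤ 2 ^ (J + 1) := Nat.pow_le_pow_right (by norm_num) (Nat.le_succ J)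
    have h6 := mem_pow_imp_eq_zero hp h0 (by omega) hmem
    rw [sub_eq_zero] at h6
    have := hinj h6
    rw [Finset.mem_range] at hj
    omega
  have hL : val p (∏ j ∈ range k, (α k - α j)) =
      ((∑ i ∈ Finset.Icc 1 J, cnt p α k i (α k) : ℕ) : ℕ∞) := by
    rw [val_prod hp h0, Finset.sum_congr rfl fun j hj => val_eq_tv (hnot j hj), ← Nat.cast_sum,
      sum_tv]
    rfl
  have hR : ((∑ i ∈ Finset.Icc 1 J, cnt p α k i s : ℕ) : ℕ∞) ≤
      val p (∏ j ∈ range k, (s - α j)) := by
    rw [val_prod hp h0]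
    calc ((∑ i ∈ Finset.Icc 1 J, cnt p α k i s : ℕ) : ℕ∞)
        = ((∑ j ∈ range k, tv p J (s - α j) : ℕ) : ℕ∞) := by rw [sum_tv]; rfl
      _ = ∑ j ∈ range k, ((tv p J (s - α j) : ℕ) : ℕ∞) := by rw [Nat.cast_sum]
      _ ≤ _ := Finset.sum_le_sum fun j _ => tv_le_val p J _
  rw [hL]
  refine le_trans ?_ hR
  exact_mod_cast Finset.sum_le_sum fun i _ => (h2 i k).trans (h1 i k s)

end crit

/-! ### digits -/

section digits

variable {k : Type*} [Field k]

/-- the polynomial with digits `ε` of `n` in base `q` -/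
noncomputable def dig (q : ℕ) (ε : ℕ → k) (n : ℕ) : k[X] :=
  ∑ i ∈ range n, C (ε (n / q ^ i % q)) * X ^ i

theorem coeff_dig {q : ℕ} (hq : 2 ≤ q) {ε : ℕ → k} (h0 : ε 0 = 0) (n i : ℕ) :
    (dig q ε n).coeff i = ε (n / q ^ i % q) := by
  classical
  unfold dig
  rw [finsetSum_coeff]
  simp_rw [coeff_C_mul_X_pow]
  rw [Finset.sum_ite_eq]
  split_ifs with h
  · rfl
  · rw [Finset.mem_range, not_lt] at h
    have h1 : n < q ^ n := Nat.lt_pow_self hq
    have h2 : q ^ n ≤ q ^ i := Nat.pow_le_pow_right (by omega) h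
    rw [Nat.div_eq_of_lt (by omega), Nat.zero_mod, h0]

theorem dig_rec {q : ℕ} (hq : 2 ≤ q) {ε : ℕ → k} (h0 : ε 0 = 0) (n : ℕ) :
    dig q ε n = C (ε (n % q)) + X * dig q ε (n / q) := by
  ext i
  rw [coeff_add, coeff_dig hq h0]
  rcases i with _ | i
  · rw [pow_zero, Nat.div_one, coeff_C_zero, mul_coeff_zero, coeff_X_zero, zero_mul, add_zero]
  · rw [coeff_C_succ, zero_add, coeff_X_mul, coeff_dig hq h0, Nat.div_div_eq_div_mul, pow_succ']

theorem dig_block {q : ℕ} (hq : 2 ≤ q) {ε : ℕ → k} (h0 : ε 0 = 0) (D u v : ℕ) (hv : v < q ^ D) :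
    dig q ε (u * q ^ D + v) = dig q ε v + X ^ D * dig q ε u := by
  induction D generalizing u v with
  | zero =>
    have : v = 0 := by simpa using hv
    subst this
    rw [pow_zero, mul_one, add_zero, pow_zero, one_mul]
    have : dig q ε 0 = 0 := by unfold dig; simp
    rw [this, zero_add]
  | succ D ih =>
    have h1 : (u * q ^ (D + 1) + v) % q = v % q := by
      rw [pow_succ, ← mul_assoc, add_comm, Nat.add_mul_mod_self_right]
    have h2 : (u * q ^ (D + 1) + v) / q = u * q ^ D + v / q := by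
      rw [pow_succ, ← mul_assoc, add_comm, Nat.add_mul_div_right _ _ (by omega), add_comm]
    have h3 : v / q < q ^ D := by
      rw [Nat.div_lt_iff_lt_mul (by omega), ← pow_succ]
      exact hv
    rw [dig_rec hq h0 (u * q ^ (D + 1) + v), h1, h2, ih u (v / q) h3, dig_rec hq h0 v]
    ring

theorem dig_degree {q : ℕ} (hq : 2 ≤ q) {ε : ℕ → k} (h0 : ε 0 = 0) {D v : ℕ} (hv : v < q ^ D) :
    (dig q ε v).degree < D := by
  rw [degree_lt_iff_coeff_zero]
  intro i hi
  rw [coeff_dig hq h0]
  have h2 : q ^ D ≤ q ^ i := Nat.pow_le_pow_right (by omega) hi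
  rw [Nat.div_eq_of_lt (by omega), Nat.zero_mod, h0]

theorem dig_inj {q : ℕ} (hq : 2 ≤ q) {ε : ℕ → k} (h0 : ε 0 = 0)
    (hε : ∀ i < q, ∀ j < q, ε i = ε j → i = j) : Function.Injective (dig q ε) := by
  intro m n h
  induction m using Nat.strong_induction_on generalizing n with
  | _ m ih =>
    have h1 : m % q = n % q := by
      refine hε _ (Nat.mod_lt _ (by omega)) _ (Nat.mod_lt _ (by omega)) ?_
      have := congrArg (fun f => f.coeff 0) h
      simp only [coeff_dig hq h0, pow_zero, Nat.div_one] at this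
      exact this
    have h2 : dig q ε (m / q) = dig q ε (n / q) := by
      rw [dig_rec hq h0 m, dig_rec hq h0 n, h1, add_right_inj] at h
      exact mul_left_cancel₀ X_ne_zero h
    rcases Nat.eq_zero_or_pos m with hm | hm
    · subst hm
      -- `dig n = 0`
      by_contra hne
      have hdig0 : dig q ε 0 = 0 := by unfold dig; simp
      -- leading digit of `n`
      have hn : n ≠ 0 := fun h => hne h.symm
      set L := Nat.log q n with hL
      have h3 : q ^ L ≤ n := Nat.pow_log_le_self q hn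
      have h4 : n < q ^ (L + 1) := Nat.lt_pow_succ_log_self (by omega) n
      have h5 : (dig q ε n).coeff L = 0 := by rw [← h, hdig0, coeff_zero]
      rw [coeff_dig hq h0] at h5
      have h6 : n / q ^ L < q := by
        rw [Nat.div_lt_iff_lt_mul (by positivity), ← pow_succ']
        exact h4
      have h7 : 0 < n / q ^ L := Nat.div_pos h3 (by positivity)
      rw [Nat.mod_eq_of_lt h6, ← h0] at h5
      have := hε _ h6 0 (by omega) h5
      omega
    · have h3 := ih (m / q) (Nat.div_lt_self hm (by omega)) h2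
      rw [← Nat.div_add_mod m q, ← Nat.div_add_mod n q, h3, h1]

theorem dig_surj {q : ℕ} (hq : 2 ≤ q) {ε : ℕ → k} (h0 : ε 0 = 0)
    (hε : ∀ c : k, ∃ i < q, ε i = c) (D : ℕ) (ρ : k[X]) (hρ : ρ.degree < D) :
    ∃ v < q ^ D, dig q ε v = ρ := by
  induction D generalizing ρ with
  | zero =>
    refine ⟨0, by simp, ?_⟩
    have h1 : ρ = 0 := by
      rw [Nat.cast_zero] at hρ
      by_contra hne
      have := zero_le_degree_iff.mpr hne
      exact absurd hρ (not_lt.mpr this)
    rw [h1]; unfold dig; simp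
  | succ D ih =>
    have h1 : ρ.divX.degree < D := by
      rw [degree_lt_iff_coeff_zero] at hρ ⊢
      intro i hi
      rw [coeff_divX]
      exact hρ (i + 1) (by omega)
    obtain ⟨v', hv', hv'ρ⟩ := ih ρ.divX h1
    obtain ⟨d, hd, hdρ⟩ := hε (ρ.coeff 0)
    refine ⟨d + q * v', ?_, ?_⟩
    · rw [pow_succ']
      calc d + q * v' < q + q * v' := by omega
        _ = q * (v' + 1) := by ring
        _ ≤ q * q ^ D := Nat.mul_le_mul_left _ hv'
    · rw [dig_rec hq h0, Nat.add_mul_mod_self_left, Nat.mod_eq_of_lt hd,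
        Nat.add_mul_div_left _ _ (by omega), Nat.div_eq_of_lt hd, zero_add, hv'ρ, hdρ]
      conv_rhs => rw [← divX_mul_X_add ρ]
      ring

open scoped Classical in
/-- in every full block exactly one element is congruent to `S` -/
theorem dig_count_ge {q : ℕ} (hq : 2 ≤ q) {ε : ℕ → k} (h0 : ε 0 = 0)
    (hε : ∀ c : k, ∃ i < q, ε i = c) {G : k[X]} (hG : G ≠ 0) (S : k[X]) (n : ℕ) :
    n / q ^ G.natDegree ≤ ((range n).filter fun j => G ∣ S - dig q ε j).card := by
  set D := G.natDegree with hD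
  have key : ∀ u : ℕ, ∃ v < q ^ D, G ∣ S - dig q ε (u * q ^ D + v) := by
    intro u
    set ρ := (S - X ^ D * dig q ε u) % G with hρ
    have h1 : ρ.degree < D := by
      have := degree_mod_lt (S - X ^ D * dig q ε u) hG
      rwa [degree_eq_natDegree hG] at this
    obtain ⟨v, hv, hvρ⟩ := dig_surj hq h0 hε D ρ h1
    refine ⟨v, hv, ?_⟩
    rw [dig_block hq h0 D u v hv, hvρ]
    have h2 : S - (ρ + X ^ D * dig q ε u) = (S - X ^ D * dig q ε u) - ρ := by ring
    have h3 := EuclideanDomain.div_add_mod (S - X ^ D * dig q ε u) G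
    rw [h2, hρ]
    exact ⟨(S - X ^ D * dig q ε u) / G, by linear_combination -h3⟩
  choose v hv hvG using key
  have hqD : 0 < q ^ D := by positivity
  calc n / q ^ D = (range (n / q ^ D)).card := (Finset.card_range _).symm
    _ ≤ _ := by
      refine Finset.card_le_card_of_injOn (fun u => u * q ^ D + v u) (fun u hu => ?_)
        (fun u _ u' _ h => ?_)
      · rw [Finset.mem_coe, Finset.mem_range] at hu
        rw [Finset.mem_coe, Finset.mem_filter, Finset.mem_range]
        refine ⟨?_, hvG u⟩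
        calc u * q ^ D + v u < u * q ^ D + q ^ D := by have := hv u; omega
          _ = (u + 1) * q ^ D := by ring
          _ ≤ n / q ^ D * q ^ D := Nat.mul_le_mul_right _ hu
          _ ≤ n := Nat.div_mul_le_self _ _
      · simp only at h
        have h1 := congrArg (fun m => m / q ^ D) h
        rwa [add_comm, Nat.add_mul_div_right _ _ hqD, Nat.div_eq_of_lt (hv u), add_comm (u' * q ^ D),
          Nat.add_mul_div_right _ _ hqD, Nat.div_eq_of_lt (hv u'), zero_add, zero_add] at h1

/-- two elements of the same block are not congruent -/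
theorem dig_block_inj {q : ℕ} (hq : 2 ≤ q) {ε : ℕ → k} (h0 : ε 0 = 0)
    (hε : ∀ i < q, ∀ j < q, ε i = ε j → i = j) {G : k[X]} (hG : G ≠ 0) {m n : ℕ}
    (hmn : m / q ^ G.natDegree = n / q ^ G.natDegree) (h : G ∣ dig q ε m - dig q ε n) : m = n := by
  set D := G.natDegree with hD
  have hqD : 0 < q ^ D := by positivity
  have h1 : dig q ε m - dig q ε n = dig q ε (m % q ^ D) - dig q ε (n % q ^ D) := by
    conv_lhs => rw [← Nat.div_add_mod' m (q ^ D), ← Nat.div_add_mod' n (q ^ D)]
    rw [dig_block hq h0 D _ _ (Nat.mod_lt _ hqD), dig_block hq h0 D _ _ (Nat.mod_lt _ hqD), hmn]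
    ring
  have h2 : dig q ε (m % q ^ D) - dig q ε (n % q ^ D) = 0 := by
    rw [h1] at h
    by_contra hne
    have h3 : G.degree ≤ (dig q ε (m % q ^ D) - dig q ε (n % q ^ D)).degree :=
      degree_le_of_dvd h hne
    have h4 : (dig q ε (m % q ^ D) - dig q ε (n % q ^ D)).degree < D :=
      lt_of_le_of_lt (degree_sub_le _ _)
        (max_lt (dig_degree hq h0 (Nat.mod_lt _ hqD)) (dig_degree hq h0 (Nat.mod_lt _ hqD)))
    rw [degree_eq_natDegree hG] at h3
    exact absurd (lt_of_le_of_lt h3 h4) (lt_irrefl _)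
  have h3 := dig_inj hq h0 hε (sub_eq_zero.mp h2)
  rw [← Nat.div_add_mod' m (q ^ D), ← Nat.div_add_mod' n (q ^ D), hmn, h3]

open scoped Classical in
theorem dig_count_le {q : ℕ} (hq : 2 ≤ q) {ε : ℕ → k} (h0 : ε 0 = 0)
    (hε : ∀ i < q, ∀ j < q, ε i = ε j → i = j) {G : k[X]} (hG : G ≠ 0) (n : ℕ) :
    ((range n).filter fun j => G ∣ dig q ε n - dig q ε j).card ≤ n / q ^ G.natDegree := by
  rw [← Finset.card_range (n / q ^ G.natDegree)]
  refine Finset.card_le_card_of_injOn (fun j => j / q ^ G.natDegree) (fun j hj => ?_)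
    (fun i hi j hj h => ?_)
  · rw [Finset.mem_coe, Finset.mem_filter, Finset.mem_range] at hj
    rw [Finset.mem_coe, Finset.mem_range]
    refine lt_of_le_of_ne (Nat.div_le_div_right hj.1.le) fun h => ?_
    have := dig_block_inj hq h0 hε hG h.symm hj.2
    omega
  · rw [Finset.mem_coe, Finset.mem_filter, Finset.mem_range] at hi hj
    have h1 := dvd_sub hj.2 hi.2
    rw [sub_sub_sub_cancel_left] at h1
    exact dig_block_inj hq h0 hε hG h h1

end digits

end Pool.Agent.Work.MP_b29d7f_nt.Ded
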