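import Pool.Agent.Work.MP_b29d7f_nt.Ded.Torsion

/-!
# A simultaneous ordering forces an element of smallest possible norm
-/

set_option linter.unusedSectionVars false

namespace Pool.Agent.Work.MP_b29d7f_nt.Ded

open Finset

variable {R : Type*} [CommRing R] [IsDedekindDomain R] [Ring.HasFiniteQuotients R]

theorem mem_ball_one (hU : UltraNorm R) (hnf : ¬ IsField R) {x : R} :
    x ∈ ball R 1 ↔ x = 0 ∨ IsUnit x := by
  have := infinite_of_not_isField hnf
  rw [mem_ball hU hnf]
  constructor
  · intro h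
    by_cases hx : x = 0
    · exact Or.inl hx
    · right
      have := nrm_pos hx
      exact nrm_eq_one.mp (by omega)
  · rintro (h | h)
    · rw [h, nrm_zero]; exact Nat.zero_le _
    · rw [nrm_eq_one.mpr h]

theorem two_le_card_ball_one (hU : UltraNorm R) (hnf : ¬ IsField R) : 2 ≤ (ball R 1).card := by
  classical
  have h : ({0, 1} : Finset R) ⊆ ball R 1 := by
    intro x hx
    rw [mem_ball_one hU hnf]
    rw [Finset.mem_insert, Finset.mem_singleton] at hx
    rcases hx with h | h
    · exact Or.inl h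
    · exact Or.inr (by rw [h]; exact isUnit_one)
  have h2 := Finset.card_le_card h
  rwa [Finset.card_pair zero_ne_one] at h2

theorem inter_ball_one (hU : UltraNorm R) (hnf : ¬ IsField R) {p : Ideal R} (hp : p.IsPrime) {x : R}
    (hx : x ∈ ball R 1) (hxp : x ∈ p) : x = 0 := by
  rcases (mem_ball_one hU hnf).mp hx with h | h
  · exact h
  · exact absurd (Ideal.eq_top_of_isUnit_mem _ hxp h) hp.ne_top

theorem card_ball_one_le_Nm (hU : UltraNorm R) (hnf : ¬ IsField R) {p : Ideal R} (hp : p.IsPrime)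
    (h0 : p ≠ ⊥) : (ball R 1).card ≤ Nm p := by
  classical
  have h := card_ball_le hU hnf 1 h0 {0} (fun x => ?_)
  · rwa [Finset.card_singleton, one_mul] at h
  · rw [Finset.mem_singleton]
    constructor
    · rintro rfl
      exact ⟨zero_mem_ball hU hnf 1, zero_mem _⟩
    · rintro ⟨h1, h2⟩
      exact inter_ball_one hU hnf hp h1 h2

/-- an element with valuations `0` and `1` only -/
theorem span_eq_prod {y : R} (hy : y ≠ 0) (T : Finset (Ideal R))
    (hT : ∀ p ∈ T, p.IsPrime ∧ p ≠ ⊥) (h1 : ∀ p ∈ T, val p y = 1)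
    (h0 : ∀ p : Ideal R, p.IsPrime → p ≠ ⊥ → p ∉ T → val p y = 0) :
    Ideal.span {y} = ∏ p ∈ T, p := by
  classical
  have hemul : ∀ P : Ideal R, Prime P → emultiplicity P (∏ p ∈ T, p) = if P ∈ T then 1 else 0 := by
    intro P hP
    rw [Finset.emultiplicity_prod hP]
    have h2 : ∀ p ∈ T, emultiplicity P p = if P = p then 1 else 0 := by
      intro p hp
      split_ifs with h
      · rw [h]
        have hfm : FiniteMultiplicity p p := by
          have := Ideal.prime_of_isPrime (hT p hp).2 (hT p hp).1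
          exact FiniteMultiplicity.of_prime_left this (hT p hp).2
        exact hfm.emultiplicity_self
      · rw [emultiplicity_eq_zero]
        intro hdvd
        apply h
        have hle : p ≤ P := Ideal.dvd_iff_le.mp hdvd
        have hmax : p.IsMaximal := (hT p hp).1.isMaximal (hT p hp).2
        exact (hmax.eq_of_le (Ideal.isPrime_of_prime hP).ne_top hle).symm
    rw [Finset.sum_congr rfl h2, Finset.sum_ite_eq]
  have hval : ∀ P : Ideal R, Prime P →
      emultiplicity P (Ideal.span {y}) = emultiplicity P (∏ p ∈ T, p) := by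
    intro P hP
    rw [hemul P hP]
    split_ifs with h
    · exact h1 P h
    · exact h0 P (Ideal.isPrime_of_prime hP) hP.ne_zero h
  have hy' : Ideal.span {y} ≠ 0 := by rwa [Ne, Ideal.zero_eq_bot, Ideal.span_singleton_eq_bot]
  have hT' : (∏ p ∈ T, p) ≠ 0 := Finset.prod_ne_zero_iff.mpr fun p hp => (hT p hp).2
  refine le_antisymm (Ideal.dvd_iff_le.mp ?_) (Ideal.dvd_iff_le.mp ?_)
  · exact (UniqueFactorizationMonoid.dvd_iff_emultiplicity_le hT').mpr fun P hP => (hval P hP).ge
  · exact (UniqueFactorizationMonoid.dvd_iff_emultiplicity_le hy').mpr fun P hP => (hval P hP).le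

/-- the first terms of a simultaneous ordering fill the balls -/
theorem fill (hU : UltraNorm R) (hnf : ¬ IsField R) {a : ℕ → R}
    (ha : ∀ p : Ideal R, p.IsPrime → p ≠ ⊥ → IsPOrdering Set.univ p a) {r : ℕ} (hr : 0 < r)
    [DecidableEq R] : (range (ball R r).card).image (fun i => a 0 - a i) = ball R r := by
  have := infinite_of_not_isField hnf
  obtain ⟨p₀, hp₀0, hp₀⟩ := Ring.not_isField_iff_exists_prime.mp hnf
  have hinj : Function.Injective a := ordering_injective hp₀ hp₀0 (ha p₀ hp₀ hp₀0)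
  have hinj' : Function.Injective fun i => a 0 - a i := by
    intro i j h
    simp only [sub_right_inj] at h
    exact hinj h
  refine Finset.eq_of_subset_of_card_le (fun x hx => ?_) ?_
  · rw [Finset.mem_image] at hx
    obtain ⟨i, hi, rfl⟩ := hx
    rw [mem_ball hU hnf]
    exact (struct hU hnf ha hr).1 i (Finset.mem_range.mp hi)
  · rw [Finset.card_image_of_injective _ hinj', Finset.card_range]

theorem surjective (hU : UltraNorm R) (hnf : ¬ IsField R) {a : ℕ → R}
    (ha : ∀ p : Ideal R, p.IsPrime → p ≠ ⊥ → IsPOrdering Set.univ p a) : Function.Surjective a := by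
  classical
  intro y
  have h1 : a 0 - y ∈ ball R (nrm (a 0 - y) + 1) := by rw [mem_ball hU hnf]; omega
  rw [← fill hU hnf ha (Nat.succ_pos _), Finset.mem_image] at h1
  obtain ⟨i, _, hi⟩ := h1
  exact ⟨i, by simpa using hi⟩

theorem exists_nrm_eq (hU : UltraNorm R) (hnf : ¬ IsField R) {a : ℕ → R}
    (ha : ∀ p : Ideal R, p.IsPrime → p ≠ ⊥ → IsPOrdering Set.univ p a) :
    ∃ x : R, nrm x = (ball R 1).card := by
  classical
  have := infinite_of_not_isField hnf
  obtain ⟨p₀, hp₀0, hp₀⟩ := Ring.not_isField_iff_exists_prime.mp hnf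
  have hinj : Function.Injective a := ordering_injective hp₀ hp₀0 (ha p₀ hp₀ hp₀0)
  set q := (ball R 1).card with hq
  have hq2 : 2 ≤ q := two_le_card_ball_one hU hnf
  set x := a q - a 0 with hx
  have hinj' : Function.Injective fun i => a 0 - a i := by
    intro i j h
    simp only [sub_right_inj] at h
    exact hinj h
  have hfill := fill hU hnf ha (r := 1) one_pos
  have hP : ∏ i ∈ range q, (a q - a i) = ∏ c ∈ ball R 1, (x + c) := by
    rw [← hfill, Finset.prod_image fun i _ j _ h => hinj' h]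
    refine Finset.prod_congr rfl fun i _ => ?_
    rw [hx]; ring
  set P := ∏ c ∈ ball R 1, (x + c) with hPdef
  have hP0 : P ≠ 0 := by
    rw [← hP]; exact ordering_prod_ne_zero hp₀ hp₀0 (ha p₀ hp₀ hp₀0) q
  -- `x` is not in the ball
  have hx1 : 1 < nrm x := by
    by_contra hle
    push Not at hle
    have h1 : -x ∈ ball R 1 := by rw [mem_ball hU hnf, nrm_neg]; exact hle
    rw [← hfill, Finset.mem_image] at h1
    obtain ⟨i, hi, h⟩ := h1
    have h2 : a 0 - a i = a 0 - a q := by rw [h, hx]; ring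
    have h3 := hinj' h2
    rw [Finset.mem_range] at hi
    omega
  have hx0 : x ≠ 0 := by
    intro h
    rw [h, nrm_zero] at hx1
    omega
  have hnrm : ∀ c ∈ ball R 1, nrm (x + c) = nrm x := by
    intro c hc
    rw [mem_ball hU hnf] at hc
    refine le_antisymm ((hU x c).trans (max_le le_rfl (by omega))) ?_
    have h1 := hU (x + c) (-c)
    rw [nrm_neg, add_neg_cancel_right] at h1
    rcases le_max_iff.mp h1 with h2 | h2
    · exact h2
    · omega
  have hnrmP : nrm P = nrm x ^ q := by
    rw [hPdef, nrm_prod, Finset.prod_congr rfl hnrm, Finset.prod_const]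
  -- valuations of `P`
  have hqN : ∀ p : Ideal R, p.IsPrime → p ≠ ⊥ → q ≤ Nm p := fun p hp h0 =>
    card_ball_one_le_Nm hU hnf hp h0
  have hvalP : ∀ p : Ideal R, p.IsPrime → p ≠ ⊥ → val p P ≤ ((q / Nm p : ℕ) : ℕ∞) := by
    intro p hp h0
    have h1 := ordering_val_le hp h0 (ha p hp h0) (k := q) (J := 1) (by
      have := hqN p hp h0
      have : q < Nm p * Nm p := by nlinarith
      rw [← pow_two] at this
      exact this)
    rw [hP] at h1
    simpa using h1
  set PP : Finset (Ideal R) := (Set.Finite.subset (Ring.HasFiniteQuotients.finite_cardQuot_le q)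
    (show {p : Ideal R | p.IsPrime ∧ p ≠ ⊥ ∧ Nm p = q} ⊆ _ from fun p hp => hp.2.2.le)).toFinset
    with hPP
  have hmemPP : ∀ p, p ∈ PP ↔ p.IsPrime ∧ p ≠ ⊥ ∧ Nm p = q := by
    intro p
    rw [hPP, Set.Finite.mem_toFinset]
    rfl
  have hP1 : ∀ p ∈ PP, val p P = 1 := by
    intro p hp
    obtain ⟨hp1, hp2, hp3⟩ := (hmemPP p).mp hp
    refine le_antisymm ?_ ?_
    · have := hvalP p hp1 hp2
      rwa [hp3, Nat.div_self (by omega), Nat.cast_one] at this
    · -- some `x + c` lies in `p`
      have hfin : Finite (R ⧸ p) := Ring.HasFiniteQuotients.finiteQuotient hp2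
      have := Fintype.ofFinite (R ⧸ p)
      have hsurj : (ball R 1).image (Ideal.Quotient.mk p) = Finset.univ := by
        rw [← Finset.card_eq_iff_eq_univ, Finset.card_image_of_injOn, ← Nat.card_eq_fintype_card]
        · exact hp3.symm
        · intro y hy z hz h
          rw [Ideal.Quotient.eq] at h
          exact sub_eq_zero.mp (inter_ball_one hU hnf hp1 (sub_mem_ball hU hnf hy hz) h)
      have h1 : Ideal.Quotient.mk p (-x) ∈ (ball R 1).image (Ideal.Quotient.mk p) := by
        rw [hsurj]; exact Finset.mem_univ _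
      rw [Finset.mem_image] at h1
      obtain ⟨c, hc, h1⟩ := h1
      rw [Ideal.Quotient.eq] at h1
      have h2 : P ∈ p := by
        rw [hPdef]
        refine Ideal.mem_of_dvd p (Finset.dvd_prod_of_mem _ hc) ?_
        have : x + c = c - -x := by ring
        rw [this]; exact h1
      have h3 : ((1 : ℕ) : ℕ∞) ≤ val p P := by rw [pow_le_val, pow_one]; exact h2
      exact_mod_cast h3
  have hP2 : ∀ p : Ideal R, p.IsPrime → p ≠ ⊥ → p ∉ PP → val p P = 0 := by
    intro p hp1 hp2 hp3
    have h1 := hvalP p hp1 hp2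
    have h2 : q < Nm p := by
      refine lt_of_le_of_ne (hqN p hp1 hp2) fun h => ?_
      exact hp3 ((hmemPP p).mpr ⟨hp1, hp2, h.symm⟩)
    rw [Nat.div_eq_of_lt h2, Nat.cast_zero, nonpos_iff_eq_zero] at h1
    exact h1
  have hPPprime : ∀ p ∈ PP, p.IsPrime ∧ p ≠ ⊥ := fun p hp =>
    ⟨((hmemPP p).mp hp).1, ((hmemPP p).mp hp).2.1⟩
  have hnrmP' : nrm P = q ^ PP.card := by
    rw [nrm_eq, span_eq_prod hP0 PP hPPprime hP1 hP2, Nm_prod,
      Finset.prod_congr rfl fun p hp => ((hmemPP p).mp hp).2.2, Finset.prod_const]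
  -- valuations of `x`
  have hxP : ∀ p : Ideal R, val p x ≤ val p P := by
    intro p
    rw [val_le_val_iff]
    intro n hn
    rw [hPdef]
    refine Ideal.mem_of_dvd _ (Finset.dvd_prod_of_mem _ (zero_mem_ball hU hnf 1)) ?_
    rwa [add_zero]
  set P0 := PP.filter fun p => x ∈ p with hP0def
  have hnrmx : nrm x = q ^ P0.card := by
    have hx1 : ∀ p ∈ P0, val p x = 1 := by
      intro p hp
      rw [hP0def, Finset.mem_filter] at hp
      refine le_antisymm ((hxP p).trans (hP1 p hp.1).le) ?_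
      have h3 : ((1 : ℕ) : ℕ∞) ≤ val p x := by rw [pow_le_val, pow_one]; exact hp.2
      exact_mod_cast h3
    have hx2 : ∀ p : Ideal R, p.IsPrime → p ≠ ⊥ → p ∉ P0 → val p x = 0 := by
      intro p hp1 hp2 hp3
      by_cases hp4 : p ∈ PP
      · have h1 : x ∉ p := fun h => hp3 (Finset.mem_filter.mpr ⟨hp4, h⟩)
        by_contra h2
        apply h1
        have h3 : ((1 : ℕ) : ℕ∞) ≤ val p x := by
          have := Order.one_le_iff_ne_zero.mpr h2
          exact_mod_cast this
        rwa [pow_le_val, pow_one] at h3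
      · have h1 := hxP p
        rw [hP2 p hp1 hp2 hp4, nonpos_iff_eq_zero] at h1
        exact h1
    rw [nrm_eq, span_eq_prod hx0 P0 (fun p hp => hPPprime p (Finset.mem_filter.mp hp).1) hx1 hx2,
      Nm_prod, Finset.prod_congr rfl fun p hp =>
        ((hmemPP p).mp (Finset.mem_filter.mp hp).1).2.2, Finset.prod_const]
  set d := P0.card with hd
  have hd1 : 1 ≤ d := by
    rw [Nat.one_le_iff_ne_zero]
    intro h
    rw [h, pow_zero] at hnrmx
    omega
  have hcardPP : PP.card = d * q := by
    rw [hnrmP, hnrmx, ← pow_mul] at hnrmP'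
    exact (Nat.pow_right_injective hq2 hnrmP').symm
  by_cases hd2 : d = 1
  · refine ⟨x, ?_⟩
    rw [hnrmx, hd2, pow_one]
  exfalso
  -- choose a prime of norm `q`
  obtain ⟨p, hp⟩ : PP.Nonempty := by
    rw [← Finset.card_pos, hcardPP]
    positivity
  obtain ⟨hp1, hp2, hp3⟩ := (hmemPP p).mp hp
  obtain ⟨h, hh, f, hf⟩ := torsion hU hnf hp1 hp2
  have hnf' : nrm f = q ^ h := by rw [nrm_eq, ← hf, Nm_pow, hp3]
  have hf0 : f ≠ 0 := by
    intro h'
    rw [h', nrm_zero] at hnf'
    have : 0 < q ^ h := pow_pos (by omega) _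
    omega
  set r := q ^ h with hr
  have hr0 : 0 < r := by rw [hr]; exact pow_pos (by omega) _
  have hstruct := (struct hU hnf ha hr0).2
  have hfr : f ∈ ball R r := by rw [mem_ball hU hnf, hnf']
  have hfp : f ∈ p ^ h := by rw [hf]; exact Ideal.mem_span_singleton_self f
  have hkap2 : ∀ i ≤ h, 2 ≤ kap p r i := by
    intro i hi
    have hsub : ({0, f} : Finset R) ⊆ (ball R r).filter fun x => x ∈ p ^ i := by
      intro y hy
      rw [Finset.mem_insert, Finset.mem_singleton] at hy
      rw [Finset.mem_filter]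
      rcases hy with hy | hy
      · rw [hy]; exact ⟨zero_mem_ball hU hnf r, zero_mem _⟩
      · rw [hy]; exact ⟨hfr, mem_pow_of_le hi hfp⟩
    have h2 := Finset.card_le_card hsub
    rwa [Finset.card_pair hf0.symm] at h2
  have hkaph : kap p r h = q := by
    have h1 : ((ball R r).filter fun x => x ∈ p ^ h) = (ball R 1).image fun c => f * c := by
      ext y
      rw [Finset.mem_filter, Finset.mem_image, mem_ball hU hnf, hf, Ideal.mem_span_singleton]
      constructor
      · rintro ⟨h1, c, rfl⟩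
        refine ⟨c, ?_, rfl⟩
        rw [mem_ball hU hnf]
        rw [nrm_mul, hnf'] at h1
        have : q ^ h * nrm c ≤ q ^ h * 1 := by rw [mul_one]; exact h1
        exact Nat.le_of_mul_le_mul_left this (pow_pos (by omega) _)
      · rintro ⟨c, hc, rfl⟩
        rw [mem_ball hU hnf] at hc
        refine ⟨?_, dvd_mul_right f c⟩
        rw [nrm_mul, hnf']
        calc q ^ h * nrm c ≤ q ^ h * 1 := Nat.mul_le_mul_left _ hc
          _ = q ^ h := mul_one _
    unfold kap
    rw [h1, Finset.card_image_of_injective]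
    intro c c' hcc
    exact mul_left_cancel₀ hf0 hcc
  have hn : (ball R r).card = q ^ (h + 1) := by
    rw [hstruct p hp1 hp2 h (hkap2 h le_rfl), hkaph, hp3, pow_succ']
  have hkaph1 : kap p r (h - 1) = q ^ 2 := by
    have h1 := hstruct p hp1 hp2 (h - 1) (hkap2 _ (by omega))
    rw [hn, hp3] at h1
    have h2 : q ^ (h + 1) = q ^ 2 * q ^ (h - 1) := by
      rw [← pow_add]; congr 1; omega
    rw [h2] at h1
    have h3 : 0 < q ^ (h - 1) := pow_pos (by omega) _
    exact (Nat.eq_of_mul_eq_mul_right h3 h1).symm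
  -- generators
  have hgen : ∀ p' ∈ PP, ∃ y : R, y ∈ ball R r ∧ Ideal.span {y} = p ^ (h - 1) * p' := by
    intro p' hp'
    obtain ⟨hp'1, hp'2, hp'3⟩ := (hmemPP p').mp hp'
    have hJ0 : p ^ (h - 1) * p' ≠ ⊥ := mul_ne_zero (pow_ne_zero _ hp2) hp'2
    have hNJ : Nm (p ^ (h - 1) * p') = r := by
      rw [Nm_mul, Nm_pow, hp3, hp'3, ← pow_succ, hr]; congr 1; omega
    have h1 := card_ball_le hU hnf r hJ0
      ((ball R r).filter fun x => x ∈ p ^ (h - 1) * p') (fun x => by rw [Finset.mem_filter])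
    rw [hn, hNJ, hr, pow_succ'] at h1
    have h2 : q ≤ ((ball R (q ^ h)).filter fun x => x ∈ p ^ (h - 1) * p').card :=
      Nat.le_of_mul_le_mul_right h1 (pow_pos (by omega) _)
    obtain ⟨y, hy, hy0⟩ := Finset.exists_mem_ne (lt_of_lt_of_le (by omega) h2) 0
    rw [Finset.mem_filter] at hy
    refine ⟨y, hy.1, ?_⟩
    refine span_eq_of_nrm_le hy.2 hy0 ?_
    rw [hNJ]
    exact (mem_ball hU hnf).mp hy.1
  choose! y hy1 hy2 using hgen
  have hcount : PP.card * (q - 1) ≤ q ^ 2 - 1 := by
    have h1 : ((ball R 1).erase 0).card = q - 1 := by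
      rw [Finset.card_erase_of_mem (zero_mem_ball hU hnf 1)]
    have h2 : (((ball R r).filter fun x => x ∈ p ^ (h - 1)).erase 0).card = q ^ 2 - 1 := by
      rw [Finset.card_erase_of_mem, ← hkaph1]
      · rfl
      · rw [Finset.mem_filter]; exact ⟨zero_mem_ball hU hnf r, zero_mem _⟩
    rw [← h1, ← h2, ← Finset.card_product]
    have hunit : ∀ c ∈ (ball R 1).erase 0, IsUnit c := by
      intro c hc
      rw [Finset.mem_erase, mem_ball_one hU hnf] at hc
      exact hc.2.resolve_left hc.1
    have hy0 : ∀ p' ∈ PP, y p' ≠ 0 := by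
      intro p' hp' h0
      have h3 := hy2 p' hp'
      rw [h0, Ideal.span_singleton_zero] at h3
      exact mul_ne_zero (pow_ne_zero _ hp2) ((hmemPP p').mp hp').2.1 h3.symm
    refine Finset.card_le_card_of_injOn (fun w => w.2 * y w.1) (fun w hw => ?_) ?_
    · rw [Finset.mem_coe, Finset.mem_product] at hw
      rw [Finset.mem_coe, Finset.mem_erase, Finset.mem_filter, mem_ball hU hnf]
      refine ⟨mul_ne_zero (Finset.mem_erase.mp hw.2).1 (hy0 w.1 hw.1), ?_, ?_⟩
      · rw [nrm_mul, nrm_eq_one.mpr (hunit _ hw.2), one_mul]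
        exact (mem_ball hU hnf).mp (hy1 w.1 hw.1)
      · refine Ideal.mul_mem_left _ _ ?_
        have h3 : y w.1 ∈ p ^ (h - 1) * w.1 := by
          rw [← hy2 w.1 hw.1]; exact Ideal.mem_span_singleton_self _
        have h4 : p ^ (h - 1) * w.1 ≤ p ^ (h - 1) := Ideal.mul_le_left
        exact h4 h3
    · rintro ⟨p', c⟩ hw ⟨p'', c'⟩ hw' heq
      rw [Finset.mem_coe, Finset.mem_product] at hw hw'
      simp only at hw hw' heq
      have h3 : Ideal.span {c * y p'} = Ideal.span {c' * y p''} := by rw [heq]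
      rw [Ideal.span_singleton_mul_left_unit (hunit c hw.2),
        Ideal.span_singleton_mul_left_unit (hunit c' hw'.2), hy2 p' hw.1, hy2 p'' hw'.1] at h3
      have h4 : p' = p'' := mul_left_cancel₀ (pow_ne_zero (h - 1) hp2) h3
      subst h4
      have h5 : c = c' := mul_right_cancel₀ (hy0 p' hw.1) heq
      rw [h5]
  rw [hcardPP] at hcount
  have hd3 : 2 ≤ d := by omega
  obtain ⟨e, he⟩ : ∃ e, q = e + 2 := ⟨q - 2, by omega⟩
  rw [he] at hcount
  have h6 : 2 * (e + 2) * (e + 1) ≤ (e + 2) ^ 2 - 1 := by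
    have h7 : 2 * (e + 2) * (e + 1) ≤ d * (e + 2) * (e + 2 - 1) := by
      have : e + 2 - 1 = e + 1 := by omega
      rw [this]
      exact Nat.mul_le_mul_right _ (Nat.mul_le_mul_right _ hd3)
    exact h7.trans hcount
  have h8 : (e + 2) ^ 2 = e * e + 4 * e + 4 := by ring
  have h9 : 2 * (e + 2) * (e + 1) = 2 * (e * e) + 6 * e + 4 := by ring
  rw [h8, h9] at h6
  omega

end Pool.Agent.Work.MP_b29d7f_nt.Ded
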