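import Pool.Agent.Work.MP_b29d7f_nt.Ded.Basic

/-!
# Upper bounds for the valuations of a `p`-ordering
-/

set_option linter.unusedSectionVars false

namespace Pool.Agent.Work.MP_b29d7f_nt.Ded

open Finset

variable {R : Type*} [CommRing R] [IsDedekindDomain R] [Ring.HasFiniteQuotients R]

open scoped Classical in
/-- number of indices `j < k` with `a j` congruent to `x` modulo `p ^ i` -/
noncomputable def cnt (p : Ideal R) (a : ℕ → R) (k i : ℕ) (x : R) : ℕ :=
  ((range k).filter fun j => x - a j ∈ p ^ i).card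

theorem cnt_congr {p : Ideal R} {a : ℕ → R} {k i : ℕ} {x y : R} (h : x - y ∈ p ^ i) :
    cnt p a k i x = cnt p a k i y := by
  classical
  unfold cnt
  congr 1
  refine Finset.filter_congr fun j _ => ?_
  constructor
  · intro hx
    have := Ideal.sub_mem _ hx h
    simpa using this
  · intro hy
    have := Ideal.add_mem _ hy h
    simpa using this

theorem greedy {p : Ideal R} (hp : p.IsPrime) (h0 : p ≠ ⊥) (a : ℕ → R) (k : ℕ) (J : ℕ) :
    ∃ x : R, ∀ i ≤ J, cnt p a k i x ≤ k / Nm p ^ i := by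
  classical
  induction J with
  | zero =>
    refine ⟨0, fun i hi => ?_⟩
    have : i = 0 := by omega
    subst this
    rw [pow_zero, Nat.div_one]
    unfold cnt
    exact (Finset.card_filter_le _ _).trans (by rw [Finset.card_range])
  | succ J ih =>
    obtain ⟨x, hx⟩ := ih
    obtain ⟨t, ht, ht'⟩ := SetLike.exists_of_lt (Ideal.pow_succ_lt_pow h0 J)
    have hfin : Finite (R ⧸ p) := Ring.HasFiniteQuotients.finiteQuotient h0
    have := Fintype.ofFinite (R ⧸ p)
    set y : R ⧸ p → R := fun ρ => x + t * Quotient.out ρ with hy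
    have hyx : ∀ ρ, y ρ - x ∈ p ^ J := by
      intro ρ
      rw [hy]
      simp only [add_sub_cancel_left]
      exact Ideal.mul_mem_right _ _ ht
    set F : R ⧸ p → Finset ℕ := fun ρ => (range k).filter fun j => y ρ - a j ∈ p ^ (J + 1) with hF
    have hsum : ∑ ρ, (F ρ).card ≤ cnt p a k J x := by
      rw [← Finset.card_biUnion]
      · refine Finset.card_le_card fun j hj => ?_
        rw [Finset.mem_biUnion] at hj
        obtain ⟨ρ, _, hj⟩ := hj
        rw [hF, Finset.mem_filter] at hj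
        rw [Finset.mem_filter]
        refine ⟨hj.1, ?_⟩
        have h1 := mem_pow_of_le (Nat.le_succ J) hj.2
        have h2 := Ideal.sub_mem _ h1 (hyx ρ)
        simpa using h2
      · intro ρ _ ρ' _ hne
        change Disjoint (F ρ) (F ρ')
        rw [Finset.disjoint_left]
        intro j hj hj'
        rw [hF, Finset.mem_filter] at hj hj'
        apply hne
        have h1 := Ideal.sub_mem _ hj.2 hj'.2
        have h2 : y ρ - a j - (y ρ' - a j) = t * (Quotient.out ρ - Quotient.out ρ') := by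
          rw [hy]; ring
        rw [h2] at h1
        have h3 := Ideal.mem_prime_of_mul_mem_pow h0 ht' h1
        rw [← Ideal.Quotient.mk_out ρ, ← Ideal.Quotient.mk_out ρ', Ideal.Quotient.eq]
        exact h3
    have hx0 := hx J le_rfl
    obtain ⟨ρ, hρ⟩ : ∃ ρ, (F ρ).card ≤ k / Nm p ^ (J + 1) := by
      by_contra hcon
      push Not at hcon
      have h1 : ∑ ρ : R ⧸ p, (k / Nm p ^ (J + 1) + 1) ≤ ∑ ρ, (F ρ).card :=
        Finset.sum_le_sum fun ρ _ => hcon ρ
      rw [Finset.sum_const, Finset.card_univ, smul_eq_mul, ← Nat.card_eq_fintype_card] at h1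
      have h2 : Nat.card (R ⧸ p) = Nm p := rfl
      rw [h2, pow_succ, ← Nat.div_div_eq_div_mul] at h1
      have h3 := Nm_pos h0
      have h4 := Nat.lt_mul_div_succ (k / Nm p ^ J) h3
      omega
    refine ⟨y ρ, fun i hi => ?_⟩
    rcases Nat.lt_or_ge J i with h | h
    · have : i = J + 1 := by omega
      subst this
      exact hρ
    · rw [cnt_congr (mem_pow_of_le h (hyx ρ))]
      exact hx i h

/-- some `x` has small valuation of `∏ (x - a j)` -/
theorem exists_val_le [Infinite R] {p : Ideal R} (hp : p.IsPrime) (h0 : p ≠ ⊥) (a : ℕ → R)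
    {k J : ℕ} (hJ : k < Nm p ^ (J + 1)) :
    ∃ x : R, val p (∏ j ∈ range k, (x - a j)) ≤ ((∑ i ∈ Finset.Icc 1 J, k / Nm p ^ i : ℕ) : ℕ∞) := by
  classical
  obtain ⟨x, hx⟩ := greedy hp h0 a k (J + 1)
  refine ⟨x, ?_⟩
  have hnot : ∀ j ∈ range k, x - a j ∉ p ^ (J + 1) := by
    intro j hj hmem
    have h1 := hx (J + 1) le_rfl
    rw [Nat.div_eq_of_lt hJ, Nat.le_zero, cnt, Finset.card_eq_zero] at h1
    have h2 : j ∈ (range k).filter fun j => x - a j ∈ p ^ (J + 1) := Finset.mem_filter.mpr ⟨hj, hmem⟩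
    rw [h1] at h2
    exact absurd h2 (Finset.notMem_empty j)
  rw [val_prod hp h0, Finset.sum_congr rfl fun j hj => val_eq_tv (hnot j hj)]
  rw [← Nat.cast_sum, sum_tv]
  exact_mod_cast Finset.sum_le_sum fun i hi => hx i (by rw [Finset.mem_Icc] at hi; omega)

/-- a `p`-ordering of `R` has small valuations -/
theorem ordering_val_le [Infinite R] {p : Ideal R} (hp : p.IsPrime) (h0 : p ≠ ⊥) {a : ℕ → R}
    (ha : IsPOrdering Set.univ p a) {k J : ℕ} (hJ : k < Nm p ^ (J + 1)) :
    val p (∏ j ∈ range k, (a k - a j)) ≤ ((∑ i ∈ Finset.Icc 1 J, k / Nm p ^ i : ℕ) : ℕ∞) := by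
  obtain ⟨x, hx⟩ := exists_val_le hp h0 a hJ
  exact (ha.2 k x (Set.mem_univ x)).trans hx

theorem ordering_prod_ne_zero [Infinite R] {p : Ideal R} (hp : p.IsPrime) (h0 : p ≠ ⊥) {a : ℕ → R}
    (ha : IsPOrdering Set.univ p a) (k : ℕ) : ∏ j ∈ range k, (a k - a j) ≠ 0 := by
  intro h
  have hJ : k < Nm p ^ (k + 1) := by
    have h1 : k < 2 ^ k := Nat.lt_two_pow_self
    have h2 : 2 ^ k ≤ Nm p ^ k := Nat.pow_le_pow_left (one_lt_Nm hp h0) k
    have h3 : Nm p ^ k ≤ Nm p ^ (k + 1) := Nat.pow_le_pow_right (Nm_pos h0) (Nat.le_succ k)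
    omega
  have h1 := ordering_val_le hp h0 ha hJ
  rw [h, val_zero, top_le_iff] at h1
  exact ENat.natCast_ne_top _ h1

theorem ordering_injective [Infinite R] {p : Ideal R} (hp : p.IsPrime) (h0 : p ≠ ⊥) {a : ℕ → R}
    (ha : IsPOrdering Set.univ p a) : Function.Injective a := by
  have key : ∀ i j, i < j → a i ≠ a j := by
    intro i j hij h
    apply ordering_prod_ne_zero hp h0 ha j
    refine Finset.prod_eq_zero (Finset.mem_range.mpr hij) ?_
    rw [h, sub_self]
  intro i j hij
  rcases lt_trichotomy i j with h | h | h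
  · exact absurd hij (key i j h)
  · exact h
  · exact absurd hij.symm (key j i h)

/-! ### sums of floors -/

/-- if `n ≤ κ M` then `2 ∑_{k<n} ⌊k/M⌋ ≤ n (κ - 1)` -/
theorem floor_sum_le {n κ M : ℕ} (hM : 0 < M) (hκ : 1 ≤ κ) (h : n ≤ κ * M) :
    2 * ∑ k ∈ range n, k / M ≤ n * (κ - 1) := by
  have h1 : 2 * ∑ k ∈ range n, k / M = ∑ k ∈ range n, (k / M + (n - 1 - k) / M) := by
    rw [Finset.sum_add_distrib, Finset.sum_range_reflect (fun k => k / M) n, two_mul]
  rw [h1]
  calc ∑ k ∈ range n, (k / M + (n - 1 - k) / M) ≤ ∑ k ∈ range n, (κ - 1) := by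
        refine Finset.sum_le_sum fun k hk => ?_
        rw [Finset.mem_range] at hk
        have h2 : k + (n - 1 - k) = n - 1 := by omega
        have h2' : k / M + (n - 1 - k) / M ≤ (k + (n - 1 - k)) / M := Nat.div_add_div_le_add_div
        rw [h2] at h2'
        have h3 : (n - 1) / M < κ := by
          rw [Nat.div_lt_iff_lt_mul hM]
          have : 0 < κ * M := by positivity
          omega
        omega
    _ = n * (κ - 1) := by rw [Finset.sum_const, Finset.card_range, smul_eq_mul]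

/-- the equality case -/
theorem floor_sum_eq {n κ M : ℕ} (hn : 0 < n) (hM : 0 < M) (hκ : 2 ≤ κ) (h : n ≤ κ * M)
    (heq : 2 * ∑ k ∈ range n, k / M = n * (κ - 1)) : n = κ * M := by
  by_contra hne
  have hlt : n < κ * M := by omega
  have h1 : 2 * ∑ k ∈ range n, k / M = ∑ k ∈ range n, (k / M + (n - 1 - k) / M) := by
    rw [Finset.sum_add_distrib, Finset.sum_range_reflect (fun k => k / M) n, two_mul]
  have hb : ∀ k ∈ range n, k / M + (n - 1 - k) / M ≤ κ - 1 := by
    intro k hk
    rw [Finset.mem_range] at hk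
    have h2 : k + (n - 1 - k) = n - 1 := by omega
    have h2' : k / M + (n - 1 - k) / M ≤ (k + (n - 1 - k)) / M := Nat.div_add_div_le_add_div
    rw [h2] at h2'
    have h3 : (n - 1) / M < κ := by
      rw [Nat.div_lt_iff_lt_mul hM]
      omega
    omega
  have hall : ∀ k ∈ range n, k / M + (n - 1 - k) / M = κ - 1 := by
    by_contra hcon
    push Not at hcon
    obtain ⟨k, hk, hkne⟩ := hcon
    have h2 : ∑ k ∈ range n, (k / M + (n - 1 - k) / M) < ∑ k ∈ range n, (κ - 1) :=
      Finset.sum_lt_sum hb ⟨k, hk, lt_of_le_of_ne (hb k hk) hkne⟩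
    rw [← h1, heq, Finset.sum_const, Finset.card_range, smul_eq_mul] at h2
    exact lt_irrefl _ h2
  -- `n > M`
  have h3 := hall 0 (Finset.mem_range.mpr hn)
  rw [Nat.zero_div, zero_add, Nat.sub_zero] at h3
  have hMn : M ≤ n - 1 := by
    by_contra hcon
    push Not at hcon
    rw [Nat.div_eq_of_lt hcon] at h3
    omega
  have h4 := hall (M - 1) (Finset.mem_range.mpr (by omega))
  rw [Nat.div_eq_of_lt (show M - 1 < M by omega), zero_add] at h4
  have h5 : (κ - 1) * M ≤ n - 1 - (M - 1) := by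
    rw [← h4]
    exact Nat.div_mul_le_self _ _
  have h6 : (κ - 1) * M = κ * M - M := by rw [Nat.sub_mul, one_mul]
  have h7 : M ≤ κ * M := Nat.le_mul_of_pos_left M (by omega)
  omega

end Pool.Agent.Work.MP_b29d7f_nt.Ded
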