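import Pool.Agent.Work.MP_b29d7f_nt.Ded.Main

/-!
# Function fields with exactly one place at infinity
-/

set_option linter.unusedSectionVars false

namespace Pool.Agent.Work.MP_b29d7f_nt.Ded

open Finset Polynomial

section general

variable {F : Type*} [Field F] {K : Type*} [Field K] [Algebra F K] (A : Subring F)

/-- the norm of an integral element divided by the element is integral -/
theorem isIntegral_norm_div [FiniteDimensional F K] [Algebra.IsSeparable F K] {w : K} (hw : w ≠ 0)
    (h : IsIntegral A w) : IsIntegral A (algebraMap F K (Algebra.norm F w) / w) := by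
  classical
  let E := AlgebraicClosure F
  let σ₀ : K →ₐ[F] E := IsAlgClosed.lift
  have h1 : σ₀ (algebraMap F K (Algebra.norm F w) / w) =
      ∏ σ ∈ (Finset.univ : Finset (K →ₐ[F] E)).erase σ₀, σ w := by
    rw [map_div₀, AlgHom.commutes, Algebra.norm_eq_prod_embeddings F E w,
      ← Finset.mul_prod_erase _ _ (Finset.mem_univ σ₀)]
    have h2 : σ₀ w ≠ 0 := by rwa [Ne, map_eq_zero]
    exact mul_div_cancel_left₀ _ h2
  rw [← isIntegral_algHom_iff (σ₀.restrictScalars A) σ₀.injective]
  change IsIntegral A (σ₀ _)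
  rw [h1]
  exact IsIntegral.prod _ fun σ _ => h.map (σ.restrictScalars A)

/-- if `V` is the only valuation ring lying over the valuation ring `O`, then `V` is the integral
closure of `O`. -/
theorem mem_iff_isIntegral [Algebra.IsAlgebraic F K] (O : ValuationSubring F)
    (hrank : ∀ r : F, r ∉ O → ∀ u : F, ∃ n : ℕ, u * (r ^ n)⁻¹ ∈ O)
    {V : ValuationSubring K} (hV : V.comap (algebraMap F K) = O)
    (huniq : ∀ V' : ValuationSubring K, V'.comap (algebraMap F K) = O → V' = V) (z : K) :
    z ∈ V ↔ IsIntegral O.toSubring z := by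
  have hOV : ∀ r : F, r ∈ O ↔ algebraMap F K r ∈ V := by
    intro r
    rw [← hV, ValuationSubring.mem_comap]
  constructor
  · intro hz
    set s : Set K := algebraMap F K '' (O : Set F) with hs
    have h1 : z ∈ (⨅ V' : {V' : ValuationSubring K // s ⊆ V'.toSubring}, V'.1.toSubring) := by
      rw [Subring.mem_iInf]
      rintro ⟨V', hV's⟩
      change z ∈ V'
      by_cases hcase : V'.comap (algebraMap F K) = O
      · rw [huniq V' hcase]; exact hz
      · -- then `V'` contains `F`, hence everything
        have hO : O ≤ V'.comap (algebraMap F K) := fun r hr => hV's ⟨r, hr, rfl⟩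
        have hex : ∃ r ∈ V'.comap (algebraMap F K), r ∉ O := by
          by_contra hcon
          push Not at hcon
          exact hcase (le_antisymm hcon hO)
        obtain ⟨r, hr, hrO⟩ := hex
        have hall : ∀ u : F, algebraMap F K u ∈ V' := by
          intro u
          obtain ⟨n, hn⟩ := hrank r hrO u
          have hr0 : r ≠ 0 := by
            rintro rfl
            exact hrO O.zero_mem
          have h2 : u = u * (r ^ n)⁻¹ * r ^ n := by
            field_simp
          rw [h2, map_mul, map_pow]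
          exact V'.mul_mem _ _ (hO hn) (pow_mem (show algebraMap F K r ∈ V' from hr) n)
        -- `z` is algebraic
        obtain ⟨p, hp, hpz⟩ := (Algebra.IsAlgebraic.isAlgebraic (R := F) z).isIntegral
        have hint : IsIntegral V'.toSubring z := by
          let f : F →+* V'.toSubring := (algebraMap F K).codRestrict V'.toSubring hall
          refine ⟨p.map f, hp.map f, ?_⟩
          rw [eval₂_map]
          exact hpz
        have hV'int : IsIntegrallyClosedIn V'.toSubring K :=
          inferInstanceAs (IsIntegrallyClosedIn V' K)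
        obtain ⟨y, hy⟩ := IsIntegrallyClosedIn.isIntegral_iff.mp hint
        rw [← hy]
        exact y.2
    rw [iInf_valuationSubring_superset] at h1
    have h2 : IsIntegral (Subring.closure s) z := h1
    -- the closure of `s` is the image of `O`
    have hcl : Subring.closure s = O.toSubring.map (algebraMap F K) := by
      refine le_antisymm (Subring.closure_le.mpr ?_) ?_
      · rintro _ ⟨r, hr, rfl⟩
        exact ⟨r, hr, rfl⟩
      · rintro _ ⟨r, hr, rfl⟩
        exact Subring.subset_closure ⟨r, hr, rfl⟩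
    obtain ⟨p, hp, hpz⟩ := h2
    have hinj : Function.Injective (algebraMap F K) := (algebraMap F K).injective
    -- lift the coefficients
    let g : O.toSubring →+* (Subring.closure s) :=
      ((algebraMap F K).comp O.toSubring.subtype).codRestrict (Subring.closure s) fun r =>
        Subring.subset_closure ⟨r, r.2, rfl⟩
    have hg : Function.Surjective g := by
      rintro ⟨y, hy⟩
      have hy' := hy
      rw [hcl] at hy'
      obtain ⟨r, hr, hry⟩ := hy'
      exact ⟨⟨r, hr⟩, Subtype.ext hry⟩
    obtain ⟨P, hP, _, hPm⟩ := lifts_and_natDegree_eq_and_monic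
      (show p ∈ lifts g from (mem_lifts p).mpr (map_surjective g hg p)) hp
    refine ⟨P, hPm, ?_⟩
    rw [← hP, eval₂_map] at hpz
    exact hpz
  · intro hz
    have hVint : IsIntegrallyClosedIn V.toSubring K :=
      inferInstanceAs (IsIntegrallyClosedIn V K)
    have hint : IsIntegral V.toSubring z := by
      obtain ⟨p, hp, hpz⟩ := hz
      let f : O.toSubring →+* V.toSubring :=
        ((algebraMap F K).comp O.toSubring.subtype).codRestrict V.toSubring fun r =>
          (hOV r).mp r.2
      refine ⟨p.map f, hp.map f, ?_⟩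
      rw [eval₂_map]
      exact hpz
    obtain ⟨y, hy⟩ := IsIntegrallyClosedIn.isIntegral_iff.mp hint
    rw [← hy]
    exact y.2

end general

section ff

variable (Fq : Type*) [Field Fq]

theorem mem_Oinf {r : RatFunc Fq} : r ∈ Oinf Fq ↔ r.intDegree ≤ 0 := by
  classical
  unfold Oinf
  rw [Valuation.mem_valuationSubring_iff, RatFunc.inftyValuation_apply]
  by_cases hr : r = 0
  · rw [hr, RatFunc.InftyValuation.map_zero', RatFunc.intDegree_zero]
    simp
  · rw [RatFunc.inftyValuation_of_nonzero _ hr, ← WithZero.exp_zero, WithZero.exp_le_exp]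

variable (K : Type*) [Field K] [Algebra Fq[X] K] [Algebra (RatFunc Fq) K]
  [IsScalarTower Fq[X] (RatFunc Fq) K] [FunctionField Fq K] [Algebra.IsSeparable (RatFunc Fq) K]

variable {K}

omit [Algebra Fq[X] K] [IsScalarTower Fq[X] (RatFunc Fq) K] in
theorem mem_iff_norm {V : ValuationSubring K}
    (hV : V.comap (algebraMap (RatFunc Fq) K) = Oinf Fq)
    (huniq : ∀ V' : ValuationSubring K, V'.comap (algebraMap (RatFunc Fq) K) = Oinf Fq → V' = V)
    {z : K} (hz : z ≠ 0) : z ∈ V ↔ (Algebra.norm (RatFunc Fq) z).intDegree ≤ 0 := by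
  have hrank : ∀ r : RatFunc Fq, r ∉ Oinf Fq → ∀ u : RatFunc Fq, ∃ n : ℕ, u * (r ^ n)⁻¹ ∈ Oinf Fq := by
    intro r hr u
    rw [mem_Oinf, not_le] at hr
    have hr0 : r ≠ 0 := by
      rintro rfl
      rw [RatFunc.intDegree_zero] at hr
      exact lt_irrefl _ hr
    have hpow : ∀ n : ℕ, (r ^ n).intDegree = n * r.intDegree := by
      intro n
      induction n with
      | zero => rw [pow_zero, RatFunc.intDegree_one]; simp
      | succ n ih =>
        rw [pow_succ, RatFunc.intDegree_mul (pow_ne_zero n hr0) hr0, ih]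
        push_cast; ring
    by_cases hu : u = 0
    · exact ⟨0, by rw [hu, zero_mul]; exact (Oinf Fq).zero_mem⟩
    refine ⟨u.intDegree.toNat, ?_⟩
    rw [mem_Oinf, RatFunc.intDegree_mul hu (inv_ne_zero (pow_ne_zero _ hr0)), RatFunc.intDegree_inv,
      hpow]
    have h1 := Int.self_le_toNat u.intDegree
    have h2 : (0 : ℤ) ≤ (u.intDegree.toNat : ℤ) := Int.natCast_nonneg _
    nlinarith
  have hmem := fun z => mem_iff_isIntegral (Oinf Fq) hrank hV huniq z
  have hnorm0 : ∀ w : K, w ≠ 0 → Algebra.norm (RatFunc Fq) w ≠ 0 := fun w hw =>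
    Algebra.norm_ne_zero_iff.mpr hw
  have hinv : Algebra.norm (RatFunc Fq) z⁻¹ = (Algebra.norm (RatFunc Fq) z)⁻¹ := by
    have h1 := map_mul (Algebra.norm (RatFunc Fq)) z z⁻¹
    rw [mul_inv_cancel₀ hz, map_one] at h1
    exact eq_inv_of_mul_eq_one_right h1.symm
  have hle : ∀ w : K, w ∈ V → (Algebra.norm (RatFunc Fq) w).intDegree ≤ 0 := by
    intro w hw
    have h1 := Algebra.isIntegral_norm (RatFunc Fq) ((hmem w).mp hw)
    have hVint : IsIntegrallyClosedIn (Oinf Fq).toSubring (RatFunc Fq) :=
      inferInstanceAs (IsIntegrallyClosedIn (Oinf Fq) (RatFunc Fq))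
    obtain ⟨y, hy⟩ := IsIntegrallyClosedIn.isIntegral_iff.mp h1
    rw [← mem_Oinf, ← hy]
    exact y.2
  refine ⟨hle z, fun h => ?_⟩
  by_contra hzV
  have hw : z⁻¹ ∈ V := (V.mem_or_inv_mem z).resolve_left hzV
  have hw0 : z⁻¹ ≠ 0 := inv_ne_zero hz
  have h1 := hle _ hw
  rw [hinv, RatFunc.intDegree_inv] at h1
  have h2 := isIntegral_norm_div (Oinf Fq).toSubring hw0 ((hmem _).mp hw)
  have h3 := (hmem _).mpr h2
  have h4 : algebraMap (RatFunc Fq) K (Algebra.norm (RatFunc Fq) z) ∈ V := by
    rw [← ValuationSubring.mem_comap, hV, mem_Oinf]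
    exact h
  apply hzV
  have h5 := V.mul_mem _ _ h3 h4
  rw [hinv, map_inv₀, div_inv_eq_mul, mul_assoc, mul_comm z, ← mul_assoc, inv_mul_cancel₀,
    one_mul] at h5
  · exact h5
  · rw [Ne, map_eq_zero]
    exact hnorm0 z hz

variable (K) [Finite Fq]

theorem hasFiniteQuotients_poly : Ring.HasFiniteQuotients Fq[X] where
  finiteQuotient {I} hI := by
    obtain ⟨g, rfl⟩ := Submodule.IsPrincipal.principal I
    have hg : g ≠ 0 := by
      rintro rfl
      apply hI
      simp
    have : Module.Finite Fq (AdjoinRoot g) := (AdjoinRoot.powerBasis hg).finite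
    exact Module.finite_of_finite Fq (M := AdjoinRoot g)

open FunctionField

theorem moduleFinite_ringOfIntegers : Module.Finite Fq[X] (ringOfIntegers Fq K) :=
  ⟨IsNoetherian.noetherian _⟩

theorem hasFiniteQuotients_ringOfIntegers : Ring.HasFiniteQuotients (ringOfIntegers Fq K) := by
  have := hasFiniteQuotients_poly Fq
  have := moduleFinite_ringOfIntegers Fq K
  exact Ring.HasFiniteQuotients.of_module_finite (R := Fq[X]) (ringOfIntegers Fq K)

theorem nrm_ringOfIntegers {x : ringOfIntegers Fq K} (hx : x ≠ 0) :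
    (nrm x : ℤ) = (Nat.card Fq : ℤ) ^ (Algebra.norm (RatFunc Fq) (x : K)).intDegree.toNat ∧
      0 ≤ (Algebra.norm (RatFunc Fq) (x : K)).intDegree := by
  have hfin := moduleFinite_ringOfIntegers Fq K
  have hinj := ringOfIntegers.algebraMap_injective Fq K
  have hfs : FaithfulSMul Fq[X] (ringOfIntegers Fq K) :=
    (faithfulSMul_iff_algebraMap_injective _ _).mpr hinj
  have htf : Module.IsTorsionFree Fq[X] (ringOfIntegers Fq K) := by
    infer_instance
  have hfree : Module.Free Fq[X] (ringOfIntegers Fq K) := Module.free_of_finite_type_torsion_free'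
  have h1 : Algebra.norm (RatFunc Fq) (x : K) =
      algebraMap Fq[X] (RatFunc Fq) (Algebra.norm Fq[X] x) :=
    Algebra.norm_localization Fq[X] (nonZeroDivisors Fq[X]) x
  rw [h1, RatFunc.intDegree_polynomial, Int.toNat_natCast]
  refine ⟨?_, Int.natCast_nonneg _⟩
  let _ : Algebra Fq (ringOfIntegers Fq K) :=
    ((algebraMap Fq[X] (ringOfIntegers Fq K)).comp C).toAlgebra
  have : IsScalarTower Fq Fq[X] (ringOfIntegers Fq K) := IsScalarTower.of_algebraMap_eq' rfl
  have h2 := finrank_quotient_span_eq_natDegree_norm (F := Fq)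
    (Module.Free.chooseBasis Fq[X] (ringOfIntegers Fq K)) hx
  have hq := hasFiniteQuotients_ringOfIntegers Fq K
  have h3 : Finite (ringOfIntegers Fq K ⧸ Ideal.span {x}) :=
    Ring.HasFiniteQuotients.finiteQuotient (by rwa [Ne, Ideal.span_singleton_eq_bot])
  have h4 : Module.Finite Fq (ringOfIntegers Fq K ⧸ Ideal.span {x}) := Module.Finite.of_finite
  have h5 : nrm x = Nat.card Fq ^ (Algebra.norm Fq[X] x).natDegree := by
    rw [nrm, Module.natCard_eq_pow_finrank (K := Fq), h2]
  rw [h5]
  push_cast
  rfl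

theorem ultraNorm_of_onePlace (h : OnePlaceAtInfinity Fq K) : UltraNorm (ringOfIntegers Fq K) := by
  classical
  have hq := hasFiniteQuotients_ringOfIntegers Fq K
  have hnf : ¬ IsField (ringOfIntegers Fq K) := ringOfIntegers.not_isField Fq K
  have hinf : Infinite (ringOfIntegers Fq K) := infinite_of_not_isField hnf
  obtain ⟨V, hV, huniq⟩ := h
  have hmem : ∀ z : K, z ≠ 0 → (z ∈ V ↔ (Algebra.norm (RatFunc Fq) z).intDegree ≤ 0) :=
    fun z hz => mem_iff_norm Fq hV huniq hz
  have hcard : 1 ≤ Nat.card Fq := Nat.card_pos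
  -- monotonicity
  have hmono : ∀ x y : ringOfIntegers Fq K, x ≠ 0 → y ≠ 0 →
      (Algebra.norm (RatFunc Fq) (x : K)).intDegree ≤ (Algebra.norm (RatFunc Fq) (y : K)).intDegree →
      nrm x ≤ nrm y := by
    intro x y hx hy hxy
    have h1 := (nrm_ringOfIntegers Fq K hx).1
    have h2 := (nrm_ringOfIntegers Fq K hy).1
    have h3 : (Nat.card Fq) ^ (Algebra.norm (RatFunc Fq) (x : K)).intDegree.toNat ≤
        (Nat.card Fq) ^ (Algebra.norm (RatFunc Fq) (y : K)).intDegree.toNat :=
      Nat.pow_le_pow_right hcard (Int.toNat_le_toNat hxy)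
    have h4 : (nrm x : ℤ) ≤ nrm y := by
      rw [h1, h2]
      exact_mod_cast h3
    exact_mod_cast h4
  have key : ∀ x y : ringOfIntegers Fq K, x ≠ 0 → y ≠ 0 → x + y ≠ 0 →
      (Algebra.norm (RatFunc Fq) (x : K)).intDegree ≤ (Algebra.norm (RatFunc Fq) (y : K)).intDegree →
      nrm (x + y) ≤ nrm y := by
    intro x y hx hy hxy hle
    refine hmono _ _ hxy hy ?_
    have hxK : (x : K) ≠ 0 := fun h => hx (Subtype.ext h)
    have hyK : (y : K) ≠ 0 := fun h => hy (Subtype.ext h)
    have hxyK : ((x : K) + y) ≠ 0 := fun h => hxy (Subtype.ext h)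
    have hnx : Algebra.norm (RatFunc Fq) (x : K) ≠ 0 := Algebra.norm_ne_zero_iff.mpr hxK
    have hny : Algebra.norm (RatFunc Fq) (y : K) ≠ 0 := Algebra.norm_ne_zero_iff.mpr hyK
    have h1 : (x : K) / y ∈ V := by
      rw [hmem _ (div_ne_zero hxK hyK)]
      have h2 : Algebra.norm (RatFunc Fq) ((x : K) / y) * Algebra.norm (RatFunc Fq) (y : K) =
          Algebra.norm (RatFunc Fq) (x : K) := by
        rw [← map_mul, div_mul_cancel₀ _ hyK]
      have h3 : Algebra.norm (RatFunc Fq) ((x : K) / y) ≠ 0 :=
        Algebra.norm_ne_zero_iff.mpr (div_ne_zero hxK hyK)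
      rw [← h2, RatFunc.intDegree_mul h3 hny] at hle
      linarith
    have h2 : 1 + (x : K) / y ∈ V := V.add_mem _ _ V.one_mem h1
    have h3 : 1 + (x : K) / y ≠ 0 := by
      intro h
      apply hxyK
      have : (x : K) + y = (1 + (x : K) / y) * y := by field_simp; ring
      rw [this, h, zero_mul]
    rw [hmem _ h3] at h2
    have h4 : ((x + y : ringOfIntegers Fq K) : K) = (1 + (x : K) / y) * y := by
      push_cast
      field_simp
      ring
    rw [h4, map_mul, RatFunc.intDegree_mul (Algebra.norm_ne_zero_iff.mpr h3) hny]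
    linarith
  intro x y
  by_cases hx : x = 0
  · rw [hx, zero_add]; exact le_max_right _ _
  by_cases hy : y = 0
  · rw [hy, add_zero]; exact le_max_left _ _
  by_cases hxy : x + y = 0
  · rw [hxy, nrm_zero]; exact Nat.zero_le _
  rcases le_total (Algebra.norm (RatFunc Fq) (x : K)).intDegree
    (Algebra.norm (RatFunc Fq) (y : K)).intDegree with h1 | h1
  · exact (key x y hx hy hxy h1).trans (le_max_right _ _)
  · rw [add_comm] at hxy ⊢
    exact (key y x hy hx hxy h1).trans (le_max_left _ _)

end ff

end Pool.Agent.Work.MP_b29d7f_nt.Ded
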