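import Pool.Agent.Work.MP_b29d7f_nt.Ded.Endgame

/-!
# An element of smallest norm makes the ring a polynomial ring
-/

set_option linter.unusedSectionVars false

namespace Pool.Agent.Work.MP_b29d7f_nt.Ded

open Finset Polynomial

universe u

variable {R : Type u} [CommRing R] [IsDedekindDomain R] [Ring.HasFiniteQuotients R]

/-- the subring of constants `{x | nrm x ≤ 1}` -/
noncomputable def constants (hU : UltraNorm R) (hnf : ¬ IsField R) : Subring R where
  carrier := {x | x = 0 ∨ IsUnit x}
  mul_mem' := by
    rintro x y (hx | hx) (hy | hy)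
    · left; rw [hx, zero_mul]
    · left; rw [hx, zero_mul]
    · left; rw [hy, mul_zero]
    · right; exact hx.mul hy
  one_mem' := Or.inr isUnit_one
  add_mem' := by
    intro x y hx hy
    exact (mem_ball_one hU hnf).mp
      (add_mem_ball hU hnf ((mem_ball_one hU hnf).mpr hx) ((mem_ball_one hU hnf).mpr hy))
  zero_mem' := Or.inl rfl
  neg_mem' := by
    rintro x (hx | hx)
    · left; rw [hx, neg_zero]
    · right; exact hx.neg

theorem mem_constants (hU : UltraNorm R) (hnf : ¬ IsField R) {x : R} :
    x ∈ constants hU hnf ↔ x ∈ ball R 1 := by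
  rw [mem_ball_one hU hnf]
  rfl

theorem constants_finite (hU : UltraNorm R) (hnf : ¬ IsField R) : Finite (constants hU hnf) := by
  have h : ((constants hU hnf : Subring R) : Set R) ⊆ ((ball R 1 : Finset R) : Set R) := by
    intro x hx
    exact (mem_constants hU hnf).mp hx
  exact Set.Finite.subset (ball R 1).finite_toSet h

theorem exists_const (hU : UltraNorm R) (hnf : ¬ IsField R) {x : R}
    (hx : nrm x = (ball R 1).card) (y : R) : ∃ c ∈ ball R 1, ∃ z, y = c + x * z := by
  classical
  have := infinite_of_not_isField hnf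
  have hq2 := two_le_card_ball_one hU hnf
  have hx0 : x ≠ 0 := by
    intro h
    rw [h, nrm_zero] at hx
    omega
  have hI : Ideal.span {x} ≠ ⊥ := by rwa [Ne, Ideal.span_singleton_eq_bot]
  have hfin : Finite (R ⧸ Ideal.span {x}) := Ring.HasFiniteQuotients.finiteQuotient hI
  have := Fintype.ofFinite (R ⧸ Ideal.span {x})
  have hsurj : (ball R 1).image (Ideal.Quotient.mk (Ideal.span {x})) = Finset.univ := by
    rw [← Finset.card_eq_iff_eq_univ, Finset.card_image_of_injOn, ← Nat.card_eq_fintype_card]
    · exact hx.symm
    · intro y hy z hz h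
      rw [Ideal.Quotient.eq] at h
      by_contra hne
      have h1 : y - z ≠ 0 := sub_ne_zero.mpr hne
      have h2 := Nm_le_nrm h h1
      have h3 := (mem_ball hU hnf).mp (sub_mem_ball hU hnf hy hz)
      rw [← nrm_eq, hx] at h2
      omega
  have h1 : Ideal.Quotient.mk (Ideal.span {x}) y ∈
      (ball R 1).image (Ideal.Quotient.mk (Ideal.span {x})) := by
    rw [hsurj]; exact Finset.mem_univ _
  rw [Finset.mem_image] at h1
  obtain ⟨c, hc, h1⟩ := h1
  rw [eq_comm, Ideal.Quotient.eq, Ideal.mem_span_singleton] at h1
  obtain ⟨z, hz⟩ := h1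
  exact ⟨c, hc, z, by rw [← hz]; ring⟩

theorem equiv_poly (hU : UltraNorm R) (hnf : ¬ IsField R) {x : R}
    (hx : nrm x = (ball R 1).card) :
    ∃ (k : Type u) (_ : Field k) (_ : Finite k), Nonempty (R ≃+* k[X]) := by
  classical
  have := infinite_of_not_isField hnf
  have hq2 := two_le_card_ball_one hU hnf
  have hx0 : x ≠ 0 := by
    intro h
    rw [h, nrm_zero] at hx
    omega
  set K := constants hU hnf with hK
  have hKfin : Finite K := constants_finite hU hnf
  set φ : K[X] →+* R := eval₂RingHom K.subtype x with hφ
  have hφC : ∀ c : K, φ (C c) = c := fun c => by rw [hφ]; simp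
  have hφX : φ X = x := by rw [hφ]; simp
  have hsurj : Function.Surjective φ := by
    intro y
    induction hn : nrm y using Nat.strong_induction_on generalizing y with
    | _ n ih =>
      by_cases h1 : nrm y ≤ 1
      · have hy : y ∈ K := (mem_constants hU hnf).mpr ((mem_ball hU hnf).mpr h1)
        exact ⟨C ⟨y, hy⟩, hφC _⟩
      · obtain ⟨c, hc, z, hz⟩ := exists_const hU hnf hx y
        have h2 : nrm z < nrm y := by
          have h3 : x * z = y - c := by rw [hz]; ring
          have h4 := (mem_ball hU hnf).mp hc
          have h5 : nrm (y - c) ≤ nrm y := by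
            have := hU y (-c)
            rw [nrm_neg, ← sub_eq_add_neg] at this
            exact this.trans (max_le le_rfl (by omega))
          rw [← h3, nrm_mul, hx] at h5
          nlinarith
        obtain ⟨g, hg⟩ := ih (nrm z) (by omega) z rfl
        have hcK : c ∈ K := (mem_constants hU hnf).mpr hc
        refine ⟨C ⟨c, hcK⟩ + X * g, ?_⟩
        rw [map_add, map_mul, hφC, hφX, hg, hz]
  have hinj : Function.Injective φ := by
    rw [injective_iff_map_eq_zero]
    intro g
    induction hn : g.natDegree using Nat.strong_induction_on generalizing g with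
    | _ n ih =>
      intro hg
      have h1 := divX_mul_X_add g
      have h2 : φ g = φ (divX g) * x + (g.coeff 0 : K) := by
        conv_lhs => rw [← h1]
        rw [map_add, map_mul, hφC, hφX]
      rw [hg] at h2
      have h3 : (g.coeff 0 : K) = 0 := by
        have h4 : ((g.coeff 0 : K) : R) ∈ ball R 1 := (mem_constants hU hnf).mp (g.coeff 0).2
        have h5 : ((g.coeff 0 : K) : R) = x * (-φ (divX g)) := by linear_combination -h2
        by_contra hne
        have h6 : ((g.coeff 0 : K) : R) ≠ 0 := fun h => hne (Subtype.ext h)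
        have h7 : nrm ((g.coeff 0 : K) : R) ≤ 1 := (mem_ball hU hnf).mp h4
        rw [h5] at h6 h7
        rw [nrm_mul, hx] at h7
        have h8 : 0 < nrm (-φ (divX g)) := nrm_pos (right_ne_zero_of_mul h6)
        nlinarith
      rw [h3, ZeroMemClass.coe_zero, add_zero] at h2
      have h4 : φ (divX g) = 0 := (mul_eq_zero.mp h2.symm).resolve_right hx0
      by_cases hdeg : g.natDegree = 0
      · rw [eq_C_of_natDegree_eq_zero hdeg, h3, C_0]
      · have h5 : divX g = 0 := by
          refine ih (divX g).natDegree ?_ (divX g) rfl h4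
          rw [natDegree_divX_eq_natDegree_tsub_one]
          omega
        rw [← h1, h5, h3, zero_mul, C_0, add_zero]
  have hfield : IsField K := Finite.isField_of_domain K
  let _ := hfield.toField
  exact ⟨K, inferInstance, hKfin, ⟨(RingEquiv.ofBijective φ ⟨hinj, hsurj⟩).symm⟩⟩

end Pool.Agent.Work.MP_b29d7f_nt.Ded
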