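import Pool.Agent.Work.MP_b29d7f_nt.Ded.Ball

/-!
# The structure theorem: a simultaneous ordering fills the balls, and the balls are balanced
-/

set_option linter.unusedSectionVars false

namespace Pool.Agent.Work.MP_b29d7f_nt.Ded

open Finset

variable {R : Type*} [CommRing R] [IsDedekindDomain R] [Ring.HasFiniteQuotients R]

theorem val_neg (p : Ideal R) (x : R) : val p (-x) = val p x := by
  rw [val, val, Ideal.span_singleton_neg]

theorem val_sub_comm (p : Ideal R) (x y : R) : val p (x - y) = val p (y - x) := by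
  rw [← val_neg, neg_sub]

theorem val_pow {p : Ideal R} (hp : p.IsPrime) (h0 : p ≠ ⊥) (x : R) (n : ℕ) :
    val p (x ^ n) = n * val p x := by
  rw [val, ← Ideal.span_singleton_pow, emultiplicity_pow (Ideal.prime_of_isPrime h0 hp)]
  rfl

/-- if `val p x ≤ val p y` for all primes then `y ∈ (x)` -/
theorem mem_span_of_val_le {x y : R} (hx : x ≠ 0)
    (h : ∀ p : Ideal R, p.IsPrime → p ≠ ⊥ → val p x ≤ val p y) : y ∈ Ideal.span {x} := by
  rw [← Ideal.dvd_span_singleton]
  refine (UniqueFactorizationMonoid.dvd_iff_emultiplicity_le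
    (by rwa [Ne, Ideal.zero_eq_bot, Ideal.span_singleton_eq_bot])).mpr fun P hP => ?_
  exact h P (Ideal.isPrime_of_prime hP) hP.ne_zero

theorem struct (hU : UltraNorm R) (hnf : ¬ IsField R) {a : ℕ → R}
    (ha : ∀ p : Ideal R, p.IsPrime → p ≠ ⊥ → IsPOrdering Set.univ p a) {r : ℕ} (hr : 0 < r) :
    (∀ i < (ball R r).card, nrm (a 0 - a i) ≤ r) ∧
    ∀ p : Ideal R, p.IsPrime → p ≠ ⊥ → ∀ i, 2 ≤ kap p r i →
      (ball R r).card = kap p r i * Nm p ^ i := by
  classical
  have := infinite_of_not_isField hnf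
  obtain ⟨p₀, hp₀0, hp₀⟩ := Ring.not_isField_iff_exists_prime.mp hnf
  have hinj : Function.Injective a := ordering_injective hp₀ hp₀0 (ha p₀ hp₀ hp₀0)
  set n := (ball R r).card with hn
  have hn0 : 0 < n := Finset.card_pos.mpr ⟨0, zero_mem_ball hU hnf r⟩
  set D : R := ∏ b ∈ (ball R r).erase 0, b with hD
  set A : R := ∏ k ∈ range n, ∏ i ∈ (range n).erase k, (a k - a i) with hA
  have hD0 : D ≠ 0 := by
    rw [hD]
    exact Finset.prod_ne_zero_iff.mpr fun b hb => (Finset.mem_erase.mp hb).1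
  have hA0 : A ≠ 0 := by
    rw [hA]
    refine Finset.prod_ne_zero_iff.mpr fun k _ => Finset.prod_ne_zero_iff.mpr fun i hi => ?_
    rw [Ne, sub_eq_zero]
    intro h
    exact (Finset.mem_erase.mp hi).1 (hinj h).symm
  -- valuations
  have hvalA : ∀ p : Ideal R, p.IsPrime → p ≠ ⊥ → ∀ J : ℕ, n ≤ Nm p ^ (J + 1) →
      val p A ≤ ((∑ i ∈ Finset.Icc 1 J, 2 * ∑ k ∈ range n, k / Nm p ^ i : ℕ) : ℕ∞) := by
    intro p hp h0 J hJ
    have h1 : val p A = 2 * ∑ k ∈ range n, val p (∏ i ∈ range k, (a k - a i)) := by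
      rw [hA, val_prod hp h0]
      rw [Finset.sum_congr rfl fun k _ => val_prod hp h0 ((range n).erase k) fun i => a k - a i]
      rw [sum_erase_symm (fun k i => val p (a k - a i)) (fun i j => val_sub_comm p _ _)]
      congr 1
      exact Finset.sum_congr rfl fun k _ => (val_prod hp h0 (range k) fun i => a k - a i).symm
    rw [h1]
    have h2 : ∑ k ∈ range n, val p (∏ i ∈ range k, (a k - a i)) ≤
        ((∑ k ∈ range n, ∑ i ∈ Finset.Icc 1 J, k / Nm p ^ i : ℕ) : ℕ∞) := by
      rw [Nat.cast_sum]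
      refine Finset.sum_le_sum fun k hk => ?_
      rw [Finset.mem_range] at hk
      exact ordering_val_le hp h0 (ha p hp h0) (by omega)
    refine (mul_le_mul_right h2 2).trans (le_of_eq ?_)
    rw [Finset.sum_comm, ← Finset.mul_sum]
    push_cast
    rfl
  have hvalD : ∀ p : Ideal R, p.IsPrime → p ≠ ⊥ → ∀ J : ℕ, r < 2 ^ (J + 1) →
      val p (D ^ n) = ((∑ i ∈ Finset.Icc 1 J, n * (kap p r i - 1) : ℕ) : ℕ∞) := by
    intro p hp h0 J hJ
    rw [val_pow hp h0, hD, val_ball hU hnf hp h0 hJ, ← Finset.mul_sum]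
    push_cast
    rfl
  have hterm : ∀ p : Ideal R, p.IsPrime → p ≠ ⊥ → ∀ i,
      2 * ∑ k ∈ range n, k / Nm p ^ i ≤ n * (kap p r i - 1) := by
    intro p hp h0 i
    exact floor_sum_le (pow_pos (Nm_pos h0) i) (kap_pos hU hnf p r i)
      (card_ball_le_kap hU hnf h0 r i)
  have hJ1 : ∀ m : ℕ, r < 2 ^ (r + n + m + 1) := fun m =>
    lt_of_lt_of_le Nat.lt_two_pow_self (Nat.pow_le_pow_right (by norm_num) (by omega))
  have hJ2 : ∀ p : Ideal R, p.IsPrime → p ≠ ⊥ → ∀ m : ℕ, n ≤ Nm p ^ (r + n + m + 1) := by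
    intro p hp h0 m
    have h1 : n < 2 ^ n := Nat.lt_two_pow_self
    have h2 : 2 ^ n ≤ 2 ^ (r + n + m + 1) := Nat.pow_le_pow_right (by norm_num) (by omega)
    have h3 : 2 ^ (r + n + m + 1) ≤ Nm p ^ (r + n + m + 1) :=
      Nat.pow_le_pow_left (one_lt_Nm hp h0) _
    omega
  -- divisibility
  have hdvd : D ^ n ∈ Ideal.span {A} := by
    refine mem_span_of_val_le hA0 fun p hp h0 => ?_
    refine (hvalA p hp h0 _ (hJ2 p hp h0 0)).trans ?_
    rw [hvalD p hp h0 _ (hJ1 0)]
    exact_mod_cast Finset.sum_le_sum fun i _ => hterm p hp h0 i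
  -- norms
  have hdom : ∀ k ∈ range n, nrm D ≤ ∏ i ∈ (range n).erase k, nrm (a k - a i) ∧
      (nrm D = ∏ i ∈ (range n).erase k, nrm (a k - a i) → ∀ s, 0 < s →
        (((range n).erase k).filter fun i => nrm (a k - a i) ≤ s).card =
          (((ball R r).erase 0).filter fun b => nrm b ≤ s).card) := by
    intro k hk
    rw [hD, nrm_prod]
    have hcard : ((range n).erase k).card = ((ball R r).erase 0).card := by
      rw [Finset.card_erase_of_mem hk, Finset.card_erase_of_mem (zero_mem_ball hU hnf r),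
        Finset.card_range]
    refine dom ((range n).erase k) ((ball R r).erase 0) (fun i => nrm (a k - a i))
      (fun b => nrm b) (fun i hi => nrm_pos ?_) (fun b hb => nrm_pos (Finset.mem_erase.mp hb).1)
      hcard fun s => ?_
    · rw [Ne, sub_eq_zero]
      intro h
      exact (Finset.mem_erase.mp hi).1 (hinj h).symm
    · rcases Nat.lt_or_ge r s with hs | hs
      · have h1 : (((ball R r).erase 0).filter fun b => nrm b ≤ s) = (ball R r).erase 0 := by
          refine Finset.filter_true_of_mem fun b hb => ?_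
          rw [Finset.mem_erase, mem_ball hU hnf] at hb
          omega
        rw [h1, ← hcard]
        exact Finset.card_filter_le _ _
      · refine Finset.card_le_card_of_injOn (fun i => a k - a i) (fun i hi => ?_)
          (fun i _ j _ h => ?_)
        · rw [Finset.mem_coe, Finset.mem_filter, Finset.mem_erase] at hi
          rw [Finset.mem_coe, Finset.mem_filter, Finset.mem_erase, mem_ball hU hnf]
          refine ⟨⟨?_, hi.2.trans hs⟩, hi.2⟩
          rw [Ne, sub_eq_zero]
          intro h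
          exact hi.1.1 (hinj h).symm
        · simp only [sub_right_inj] at h
          exact hinj h
  have hnrmA : nrm A = ∏ k ∈ range n, ∏ i ∈ (range n).erase k, nrm (a k - a i) := by
    rw [hA, nrm_prod]
    exact Finset.prod_congr rfl fun k _ => nrm_prod _ _
  have hnrmD : nrm (D ^ n) = ∏ k ∈ range n, nrm D := by
    rw [nrm_pow, Finset.prod_const, Finset.card_range]
  have hle : nrm (D ^ n) ≤ nrm A := by
    rw [hnrmA, hnrmD]
    exact Finset.prod_le_prod' fun k hk => (hdom k hk).1
  have hspan : Ideal.span {D ^ n} = Ideal.span {A} :=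
    span_eq_of_nrm_le hdvd (pow_ne_zero n hD0) hle
  refine ⟨?_, ?_⟩
  · have heq : nrm D = ∏ i ∈ (range n).erase 0, nrm (a 0 - a i) := by
      by_contra hne
      have hlt : nrm (D ^ n) < nrm A := by
        rw [hnrmA, hnrmD]
        exact Finset.prod_lt_prod (fun k _ => nrm_pos hD0) (fun k hk => (hdom k hk).1)
          ⟨0, Finset.mem_range.mpr hn0, lt_of_le_of_ne (hdom 0 (Finset.mem_range.mpr hn0)).1 hne⟩
      have h2 : nrm (D ^ n) = nrm A := by rw [nrm_eq, nrm_eq, hspan]
      omega
    have h1 := (hdom 0 (Finset.mem_range.mpr hn0)).2 heq r hr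
    have h2 : (((ball R r).erase 0).filter fun b => nrm b ≤ r) = (ball R r).erase 0 := by
      refine Finset.filter_true_of_mem fun b hb => ?_
      rw [Finset.mem_erase, mem_ball hU hnf] at hb
      exact hb.2
    have hcard : ((range n).erase 0).card = ((ball R r).erase 0).card := by
      rw [Finset.card_erase_of_mem (Finset.mem_range.mpr hn0),
        Finset.card_erase_of_mem (zero_mem_ball hU hnf r), Finset.card_range]
    rw [h2, ← hcard] at h1
    have h3 := Finset.card_filter_eq_iff.mp h1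
    intro i hi
    by_cases hi0 : i = 0
    · rw [hi0, sub_self, nrm_zero]
      exact Nat.zero_le _
    · exact h3 i (Finset.mem_erase.mpr ⟨hi0, Finset.mem_range.mpr hi⟩)
  · intro p hp h0 i hκ
    rcases Nat.eq_zero_or_pos i with hi | hi
    · subst hi
      rw [pow_zero, mul_one]
      unfold kap
      rw [hn]
      congr 1
      symm
      refine Finset.filter_true_of_mem fun x _ => ?_
      rw [pow_zero, Ideal.one_eq_top]
      exact Submodule.mem_top
    · have h1 : val p (D ^ n) = val p A := by rw [val, val, hspan]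
      have h2 := hvalA p hp h0 _ (hJ2 p hp h0 i)
      rw [← h1, hvalD p hp h0 _ (hJ1 i)] at h2
      have h3 : ∑ j ∈ Finset.Icc 1 (r + n + i), n * (kap p r j - 1) ≤
          ∑ j ∈ Finset.Icc 1 (r + n + i), 2 * ∑ k ∈ range n, k / Nm p ^ j := by exact_mod_cast h2
      have h4 := (Finset.sum_eq_sum_iff_of_le (s := Finset.Icc 1 (r + n + i))
        (f := fun j => 2 * ∑ k ∈ range n, k / Nm p ^ j) (g := fun j => n * (kap p r j - 1))
        fun j _ => hterm p hp h0 j).mp (le_antisymm (Finset.sum_le_sum fun j _ => hterm p hp h0 j) h3)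
      exact floor_sum_eq hn0 (pow_pos (Nm_pos h0) i) hκ (card_ball_le_kap hU hnf h0 r i)
        (h4 i (Finset.mem_Icc.mpr ⟨hi, by omega⟩))

end Pool.Agent.Work.MP_b29d7f_nt.Ded
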