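import Pool.Agent.Work.MP_b29d7f_nt.Ded.Struct

/-!
# Some power of every prime is principal
-/

set_option linter.unusedSectionVars false

namespace Pool.Agent.Work.MP_b29d7f_nt.Ded

open Finset

variable {R : Type*} [CommRing R] [IsDedekindDomain R] [Ring.HasFiniteQuotients R]

/-- the balls are large -/
theorem ball_large (hU : UltraNorm R) (hnf : ¬ IsField R) {x : R} (hx : x ≠ 0) :
    ∃ C : ℕ, 0 < C ∧ ∀ t : ℕ, nrm x ^ (t + 1) ≤ (ball R (C * nrm x ^ t)).card := by
  classical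
  have := infinite_of_not_isField hnf
  have hfin : Finite (R ⧸ Ideal.span {x}) :=
    Ring.HasFiniteQuotients.finiteQuotient (by rwa [Ne, Ideal.span_singleton_eq_bot])
  have := Fintype.ofFinite (R ⧸ Ideal.span {x})
  set Y : Finset R := (Finset.univ : Finset (R ⧸ Ideal.span {x})).image Quotient.out with hY
  have hYinj : ∀ y ∈ Y, ∀ y' ∈ Y, y - y' ∈ Ideal.span {x} → y = y' := by
    intro y hy y' hy' h
    rw [hY, Finset.mem_image] at hy hy'
    obtain ⟨ρ, _, rfl⟩ := hy
    obtain ⟨ρ', _, rfl⟩ := hy'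
    rw [← Ideal.Quotient.eq, Ideal.Quotient.mk_out, Ideal.Quotient.mk_out] at h
    rw [h]
  have hYcard : Y.card = nrm x := by
    rw [hY, Finset.card_image_of_injective, Finset.card_univ, ← Nat.card_eq_fintype_card]
    · rfl
    · intro ρ ρ' h
      rw [← Ideal.Quotient.mk_out ρ, ← Ideal.Quotient.mk_out ρ', h]
  set C := Y.sup nrm + 1 with hC
  refine ⟨C, by omega, fun t => ?_⟩
  have hD : 0 < nrm x := nrm_pos hx
  have hYC : ∀ y ∈ Y, nrm y ≤ C := fun y hy => (Finset.le_sup (f := nrm) hy).trans (by omega)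
  have claim : ∀ t : ℕ, ∃ F : Finset R, F.card = nrm x ^ (t + 1) ∧ ∀ z ∈ F, nrm z ≤ C * nrm x ^ t := by
    intro t
    induction t with
    | zero => exact ⟨Y, by rw [hYcard, zero_add, pow_one], fun z hz => by rw [pow_zero, mul_one]; exact hYC z hz⟩
    | succ t ih =>
      obtain ⟨F, hF, hFn⟩ := ih
      refine ⟨(Y ×ˢ F).image fun q => q.1 + x * q.2, ?_, fun z hz => ?_⟩
      · rw [Finset.card_image_of_injOn, Finset.card_product, hYcard, hF, pow_succ' _ (t + 1)]
        rintro ⟨y, z⟩ hq ⟨y', z'⟩ hq' h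
        rw [Finset.mem_coe, Finset.mem_product] at hq hq'
        simp only at h hq hq'
        have h1 : y - y' = x * (z' - z) := by linear_combination h
        have h2 : y = y' := hYinj y hq.1 y' hq'.1 (by
          rw [h1]; exact Ideal.mul_mem_right _ _ (Ideal.mem_span_singleton_self x))
        rw [h2, sub_self] at h1
        have h3 : z' - z = 0 := (mul_eq_zero.mp h1.symm).resolve_left hx
        rw [h2, sub_eq_zero.mp h3]
      · rw [Finset.mem_image] at hz
        obtain ⟨⟨y, z⟩, hq, rfl⟩ := hz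
        rw [Finset.mem_product] at hq
        refine (hU _ _).trans (max_le ?_ ?_)
        · refine (hYC y hq.1).trans ?_
          exact Nat.le_mul_of_pos_right C (pow_pos hD _)
        · rw [nrm_mul]
          calc nrm x * nrm z ≤ nrm x * (C * nrm x ^ t) := Nat.mul_le_mul_left _ (hFn z hq.2)
            _ = C * nrm x ^ (t + 1) := by ring
  obtain ⟨F, hF, hFn⟩ := claim t
  rw [← hF]
  exact Finset.card_le_card fun z hz => (mem_ball hU hnf).mpr (hFn z hz)

theorem torsion (hU : UltraNorm R) (hnf : ¬ IsField R) {p : Ideal R} (hp : p.IsPrime) (h0 : p ≠ ⊥) :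
    ∃ h : ℕ, 0 < h ∧ ∃ f : R, p ^ h = Ideal.span {f} := by
  classical
  have := infinite_of_not_isField hnf
  obtain ⟨x, hxp, hx0⟩ := Submodule.exists_mem_ne_zero_of_ne_bot h0
  have hD : 1 < nrm x := lt_of_lt_of_le (one_lt_Nm hp h0) (Nm_le_nrm hxp hx0)
  obtain ⟨C, hC, hball⟩ := ball_large hU hnf hx0
  have key : ∀ m : ℕ, ∃ (y : R) (J : Ideal R), y ≠ 0 ∧ Ideal.span {y} = p ^ m * J ∧ Nm J ≤ C := by
    intro m
    have hNm : 0 < Nm p ^ m := pow_pos (Nm_pos h0) m
    set t := Nat.log (nrm x) (Nm p ^ m) with ht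
    have h1 : nrm x ^ t ≤ Nm p ^ m := Nat.pow_log_le_self _ hNm.ne'
    have h2 : Nm p ^ m < nrm x ^ (t + 1) := Nat.lt_pow_succ_log_self hD _
    have h3 := hball t
    have h4 := card_ball_le_kap hU hnf h0 (C * nrm x ^ t) m
    have h5 : 1 < kap p (C * nrm x ^ t) m := by
      by_contra hle
      push Not at hle
      have := Nat.mul_le_mul_right (Nm p ^ m) hle
      omega
    obtain ⟨y, hy, hy0⟩ : ∃ y ∈ (ball R (C * nrm x ^ t)).filter (fun x => x ∈ p ^ m), y ≠ 0 := by
      obtain ⟨y, hy, hne⟩ := Finset.exists_mem_ne h5 0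
      exact ⟨y, hy, hne⟩
    rw [Finset.mem_filter, mem_ball hU hnf] at hy
    obtain ⟨J, hJ⟩ := Ideal.dvd_span_singleton.mpr hy.2
    refine ⟨y, J, hy0, hJ, ?_⟩
    have h6 : nrm y = Nm p ^ m * Nm J := by rw [nrm_eq, hJ, Nm_mul, Nm_pow]
    have h7 : Nm p ^ m * Nm J ≤ Nm p ^ m * C := by
      rw [← h6]
      refine hy.1.trans ?_
      rw [mul_comm]
      exact Nat.mul_le_mul_right C h1
    exact Nat.le_of_mul_le_mul_left h7 hNm
  choose y J hy hJ hJC using key
  have hfin : {I : Ideal R | Nm I ≤ C}.Finite := Ring.HasFiniteQuotients.finite_cardQuot_le C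
  have hninj : ∃ m m', m < m' ∧ J m = J m' := by
    obtain ⟨m, _, m', _, hne, h⟩ := Set.infinite_univ.exists_ne_map_eq_of_mapsTo
      (f := J) (t := {I : Ideal R | Nm I ≤ C}) (fun m _ => hJC m) hfin
    rcases lt_or_gt_of_ne hne with h1 | h1
    · exact ⟨m, m', h1, h⟩
    · exact ⟨m', m, h1, h.symm⟩
  obtain ⟨m, m', hmm, hJJ⟩ := hninj
  refine ⟨m' - m, by omega, ?_⟩
  have h1 : Ideal.span {y m'} = p ^ (m' - m) * Ideal.span {y m} := by
    rw [hJ m', hJ m, ← mul_assoc, ← pow_add, hJJ]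
    congr 2
    omega
  have h2 : y m' ∈ Ideal.span {y m} := by
    have h3 : y m' ∈ p ^ (m' - m) * Ideal.span {y m} := by
      rw [← h1]; exact Ideal.mem_span_singleton_self _
    have h4 : p ^ (m' - m) * Ideal.span {y m} ≤ Ideal.span {y m} := Ideal.mul_le_right
    exact h4 h3
  obtain ⟨z, hz⟩ := Ideal.mem_span_singleton.mp h2
  refine ⟨z, ?_⟩
  rw [hz, ← Ideal.span_singleton_mul_span_singleton, mul_comm (p ^ (m' - m))] at h1
  have h3 : Ideal.span {y m} ≠ 0 := by
    rw [Ne, Ideal.zero_eq_bot, Ideal.span_singleton_eq_bot]; exact hy m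
  exact (mul_left_cancel₀ h3 h1).symm

end Pool.Agent.Work.MP_b29d7f_nt.Ded
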